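import Pool.Agent.Lib.MP_852f56_nt.Period

/-!
Counting in progressions and Brun's pure sieve (lower bound).
-/

open Finset Real

namespace Pool.Agent.Lib.MP_852f56_nt

lemma count_ap {D q : ℕ} (hD : 0 < D) (h : Nat.Coprime D q) (a X : ℕ) :
    |∑ j ∈ range X, (if D ∣ a + j * q then (1 : ℝ) else 0) - (X : ℝ) / D| ≤ 1 := by
  set f : ℕ → ℝ := fun j => if D ∣ a + j * q then (1 : ℝ) else 0 with hf
  have hper : Function.Periodic f D := by
    intro j
    have : D ∣ a + (j + D) * q ↔ D ∣ a + j * q := by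
      rw [show a + (j + D) * q = (a + j * q) + D * q by ring]
      exact Nat.dvd_add_left (dvd_mul_right _ _)
    simp only [hf, this]
  have hf0 : ∀ j, 0 ≤ f j := by intro j; simp only [hf]; split_ifs <;> norm_num
  have h1 : ∑ j ∈ range D, f j = 1 := sum_ind_coprime hD h a
  have hN : X = (X / D) * D + X % D := by
    have := Nat.div_add_mod X D; rw [mul_comm] at this; omega
  have hb' : X % D < D := Nat.mod_lt _ hD
  set u := X / D
  set b := X % D
  have hD' : (0 : ℝ) < D := by exact_mod_cast hD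
  have h2 : ∑ j ∈ range b, f (u * D + j) ≤ 1 := by
    rw [← h1, ← sum_shift hper (u * D)]
    rw [sum_congr rfl fun j _ => congrArg f (add_comm (u * D) j)]
    exact sum_le_sum_of_subset_of_nonneg (range_subset_range.mpr hb'.le) fun j _ _ => hf0 _
  have h3 : 0 ≤ ∑ j ∈ range b, f (u * D + j) := sum_nonneg fun j _ => hf0 _
  have h6 : ∑ j ∈ range X, f j = u + ∑ j ∈ range b, f (u * D + j) := by
    conv_lhs => rw [hN]
    rw [sum_range_add, sum_mul_period hper, h1, mul_one]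
  have h5 : (X : ℝ) / D = u + b / D := by
    have : (X : ℝ) = u * D + b := by exact_mod_cast hN
    rw [this]; field_simp
  have h7 : (b : ℝ) / D ≤ 1 := by
    rw [div_le_one hD']; exact_mod_cast hb'.le
  have h8 : (0 : ℝ) ≤ b / D := by positivity
  rw [h6, h5, abs_le]
  constructor <;> linarith

lemma bonferroni {α : Type*} [DecidableEq α] (S : Finset α) (h : ℕ) :
    ∑ T ∈ S.powerset, (if T.card ≤ 2 * h + 1 then (-1 : ℝ) ^ T.card else 0) ≤
      if S = ∅ then 1 else 0 := by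
  split_ifs with hS
  · subst hS; simp
  · obtain ⟨n, hn⟩ : ∃ n, S.card = n + 1 :=
      Nat.exists_eq_succ_of_ne_zero (card_ne_zero.mpr (nonempty_iff_ne_empty.mpr hS))
    rw [sum_powerset_apply_card (fun j => if j ≤ 2 * h + 1 then (-1 : ℝ) ^ j else 0), hn]
    have h1 := Int.alternating_sum_range_choose_eq_choose (n := n) (m := 2 * h + 1)
    have h2 : ∑ k ∈ range (2 * h + 1 + 1), ((-1 : ℝ) ^ k * ((n + 1).choose k : ℝ)) =
        (-1) ^ (2 * h + 1) * (n.choose (2 * h + 1) : ℝ) := by exact_mod_cast h1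
    have h3 : ∑ k ∈ range (n + 1 + 1), (n + 1).choose k •
        (if k ≤ 2 * h + 1 then (-1 : ℝ) ^ k else 0) =
        ∑ k ∈ range (2 * h + 1 + 1), ((-1 : ℝ) ^ k * ((n + 1).choose k : ℝ)) := by
      set g : ℕ → ℝ := fun k => (n + 1).choose k • (if k ≤ 2 * h + 1 then (-1 : ℝ) ^ k else 0)
        with hg
      have e1 : ∑ k ∈ range (n + 1 + 1), g k = ∑ k ∈ range (n + 2 * h + 3), g k := by
        refine sum_subset (range_subset_range.mpr (by omega)) fun k _ hk => ?_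
        have : n + 1 < k := by simpa using hk
        simp [hg, Nat.choose_eq_zero_of_lt this]
      have e2 : ∑ k ∈ range (2 * h + 1 + 1), g k = ∑ k ∈ range (n + 2 * h + 3), g k := by
        refine sum_subset (range_subset_range.mpr (by omega)) fun k _ hk => ?_
        have : ¬ k ≤ 2 * h + 1 := by simpa using hk
        simp [hg, this]
      rw [e1, ← e2]
      refine sum_congr rfl fun k hk => ?_
      have : k ≤ 2 * h + 1 := by simpa [Nat.lt_succ_iff] using hk
      simp only [hg, if_pos this, nsmul_eq_mul]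
      ring
    rw [h3, h2, pow_succ, pow_mul]
    have : (0 : ℝ) ≤ n.choose (2 * h + 1) := Nat.cast_nonneg _
    simp

lemma exp_le_one_sub {t : ℝ} (h0 : 0 ≤ t) (h1 : t ≤ 1 / 2) : exp (-(2 * t)) ≤ 1 - t := by
  have h2 := add_one_le_exp (2 * t)
  rw [exp_neg, inv_le_iff_one_le_mul₀ (exp_pos _)]
  nlinarith

/-- Brun's pure sieve, lower bound, in a progression. -/
lemma rough_count (Pr : Finset ℕ) {q z h : ℕ} (a X : ℕ) (hz0 : 0 < z)
    (hP : ∀ p ∈ Pr, p.Prime ∧ Nat.Coprime p q) (hcard : Pr.card ≤ z) {lam : ℝ}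
    (hlam : ∑ p ∈ Pr, (1 : ℝ) / p ≤ lam) (hJ : 4 * exp (4 * lam) ≤ 2 ^ (2 * h + 2))
    (hz : 12 * (z : ℝ) ^ (2 * h + 1) ≤ X * exp (-(2 * lam))) :
    exp (-(2 * lam)) / 2 * X ≤
      (((range X).filter fun j => ∀ p ∈ Pr, ¬ p ∣ a + j * q).card : ℝ) := by
  classical
  set J := 2 * h + 1 with hJdef
  have hz' : (0 : ℝ) < z := by exact_mod_cast hz0
  have h1 : ∀ j, ∑ T ∈ Pr.powerset, (if T.card ≤ J then (-1 : ℝ) ^ T.card else 0) *
      (if (∏ p ∈ T, p) ∣ a + j * q then (1 : ℝ) else 0) ≤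
      if ∀ p ∈ Pr, ¬ p ∣ a + j * q then 1 else 0 := by
    intro j
    set S := Pr.filter (fun p => p ∣ a + j * q) with hS
    have e1 : ∑ T ∈ Pr.powerset, (if T.card ≤ J then (-1 : ℝ) ^ T.card else 0) *
        (if (∏ p ∈ T, p) ∣ a + j * q then (1 : ℝ) else 0) =
        ∑ T ∈ S.powerset, (if T.card ≤ J then (-1 : ℝ) ^ T.card else 0) := by
      symm
      refine sum_subset_zero_on_sdiff (powerset_mono.mpr (filter_subset _ _)) ?_ ?_
      · intro T hT
        obtain ⟨hT1, hT2⟩ := mem_sdiff.mp hT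
        rw [if_neg (c := (∏ p ∈ T, p) ∣ a + j * q), mul_zero]
        intro hdvd
        refine hT2 (mem_powerset.mpr fun p hp => mem_filter.mpr ⟨mem_powerset.mp hT1 hp, ?_⟩)
        exact (dvd_prod_of_mem (fun p => p) hp).trans hdvd
      · intro T hT
        rw [if_pos (c := (∏ p ∈ T, p) ∣ a + j * q), mul_one]
        refine Finset.prod_primes_dvd _ (fun p hp => ?_) fun p hp => ?_
        · exact (hP p (mem_filter.mp (mem_powerset.mp hT hp)).1).1.prime
        · exact (mem_filter.mp (mem_powerset.mp hT hp)).2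
    rw [e1]
    refine (bonferroni S h).trans (le_of_eq ?_)
    simp only [hS, filter_eq_empty_iff]
  have h2 : ∀ T ∈ Pr.powerset, X * (∏ p ∈ T, (-(1 / (p : ℝ)))) -
      X * ((1 / 2) ^ (J + 1) * ∏ p ∈ T, (2 * (1 / (p : ℝ)))) - (z : ℝ) ^ J * ∏ _p ∈ T, (1 / (z : ℝ)) ≤
      ∑ j ∈ range X, (if T.card ≤ J then (-1 : ℝ) ^ T.card else 0) *
      (if (∏ p ∈ T, p) ∣ a + j * q then (1 : ℝ) else 0) := by
    intro T hT
    have hT' := mem_powerset.mp hT
    have hD : 0 < ∏ p ∈ T, p := prod_pos fun p hp => (hP p (hT' hp)).1.pos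
    have hcop : Nat.Coprime (∏ p ∈ T, p) q := Nat.Coprime.prod_left fun p hp => (hP p (hT' hp)).2
    have hc := count_ap hD hcop a X
    have e1 : ∏ p ∈ T, (-(1 / (p : ℝ))) = (-1) ^ T.card * (1 / ((∏ p ∈ T, p : ℕ) : ℝ)) := by
      rw [prod_neg, prod_div_distrib]; push_cast; simp
    have e2 : ∏ p ∈ T, (2 * (1 / (p : ℝ))) = 2 ^ T.card * (1 / ((∏ p ∈ T, p : ℕ) : ℝ)) := by
      rw [prod_mul_distrib, prod_div_distrib]; push_cast; simp
    rw [← mul_sum, e1, e2, prod_const]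
    set D : ℝ := ((∏ p ∈ T, p : ℕ) : ℝ) with hDdef
    have hD' : 0 < D := by rw [hDdef]; exact_mod_cast hD
    set cnt := ∑ j ∈ range X, (if (∏ p ∈ T, p) ∣ a + j * q then (1 : ℝ) else 0)
    have hX : (0 : ℝ) ≤ X := Nat.cast_nonneg _
    have hs : |(-1 : ℝ) ^ T.card| = 1 := by simp
    split_ifs with hTJ
    · have h3 : (1 : ℝ) ≤ (z : ℝ) ^ J * (1 / (z : ℝ)) ^ T.card := by
        obtain ⟨e, he⟩ := Nat.exists_eq_add_of_le hTJ
        rw [he, pow_add, mul_right_comm, ← mul_pow, mul_one_div_cancel hz'.ne', one_pow, one_mul]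
        exact one_le_pow₀ (by exact_mod_cast hz0)
      have h4 : 0 ≤ X * ((1 / 2) ^ (J + 1) * (2 ^ T.card * (1 / D))) := by positivity
      have h5 : |(-1 : ℝ) ^ T.card * (cnt - X / D)| ≤ 1 := by rw [abs_mul, hs, one_mul]; exact hc
      have h6 := (abs_le.mp h5).1
      have e3 : (X : ℝ) * ((-1) ^ T.card * (1 / D)) = (-1) ^ T.card * (X / D) := by ring
      rw [e3]; linarith
    · have h3 : 0 ≤ (z : ℝ) ^ J * (1 / (z : ℝ)) ^ T.card := by positivity
      have h4 : (1 : ℝ) ≤ (1 / 2) ^ (J + 1) * 2 ^ T.card := by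
        obtain ⟨e, he⟩ := Nat.exists_eq_add_of_le (show J + 1 ≤ T.card by omega)
        rw [he, pow_add 2, ← mul_assoc, ← mul_pow]
        norm_num
        exact one_le_pow₀ (by norm_num)
      have h5 : (-1 : ℝ) ^ T.card ≤ 1 := (le_abs_self _).trans hs.le
      have h6 : (0 : ℝ) ≤ X * (1 / D) := by positivity
      have h7 : (X : ℝ) * ((-1) ^ T.card * (1 / D)) ≤
          X * ((1 / 2) ^ (J + 1) * (2 ^ T.card * (1 / D))) := by
        have := mul_le_mul_of_nonneg_left (h5.trans h4) h6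
        linarith
      linarith
  have h3 := sum_le_sum h2
  rw [sum_comm, sum_sub_distrib, sum_sub_distrib, ← mul_sum, ← mul_sum, ← mul_sum, ← mul_sum,
    ← prod_one_add, ← prod_one_add, ← prod_one_add] at h3
  have h4 := sum_le_sum fun j (_ : j ∈ range X) => h1 j
  rw [← sum_filter, sum_const, nsmul_eq_mul, mul_one] at h4
  refine le_trans ?_ (h3.trans h4)
  have h5 : exp (-(2 * lam)) ≤ ∏ p ∈ Pr, (1 + -(1 / (p : ℝ))) := by
    calc exp (-(2 * lam)) ≤ exp (∑ p ∈ Pr, -(2 * (1 / (p : ℝ)))) := by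
          rw [sum_neg_distrib, ← mul_sum]; gcongr
      _ = ∏ p ∈ Pr, exp (-(2 * (1 / (p : ℝ)))) := exp_sum _ _
      _ ≤ _ := by
          refine prod_le_prod (fun p _ => (exp_pos _).le) fun p hp => ?_
          have : (2 : ℝ) ≤ p := by exact_mod_cast (hP p hp).1.two_le
          rw [← sub_eq_add_neg]
          exact exp_le_one_sub (by positivity) (by gcongr)
  have h6 : ∏ p ∈ Pr, (1 + 2 * (1 / (p : ℝ))) ≤ exp (2 * lam) := by
    refine (prod_one_add_le_exp_sum _ fun p => by positivity).trans ?_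
    rw [← mul_sum]; gcongr
  have h7 : ∏ _p ∈ Pr, (1 + 1 / (z : ℝ)) ≤ 3 := by
    refine (prod_one_add_le_exp_sum _ fun p => by positivity).trans ?_
    have : ∑ _p ∈ Pr, 1 / (z : ℝ) ≤ 1 := by
      rw [sum_const, nsmul_eq_mul, mul_one_div, div_le_one hz']; exact_mod_cast hcard
    exact (exp_le_exp.mpr this).trans (exp_one_lt_d9.le.trans (by norm_num))
  have h8 : (1 / 2 : ℝ) ^ (J + 1) * exp (2 * lam) ≤ exp (-(2 * lam)) / 4 := by
    have e1 : exp (2 * lam) = exp (4 * lam) * exp (-(2 * lam)) := by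
      rw [← exp_add]; congr 1; ring
    have e2 : (1 / 2 : ℝ) ^ (J + 1) * 2 ^ (2 * h + 2) = 1 := by
      rw [hJdef, ← mul_pow]; norm_num
    have h9 : (1 / 2 : ℝ) ^ (J + 1) * (4 * exp (4 * lam)) ≤ 1 := by
      refine le_trans ?_ e2.le
      gcongr
    have := exp_pos (-(2 * lam))
    rw [e1]; nlinarith
  have hX : (0 : ℝ) ≤ X := Nat.cast_nonneg _
  have h10 : X * ((1 / 2 : ℝ) ^ (J + 1) * ∏ p ∈ Pr, (1 + 2 * (1 / (p : ℝ)))) ≤
      X * (exp (-(2 * lam)) / 4) := by
    gcongr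
    exact le_trans (by gcongr) h8
  have h11 : (z : ℝ) ^ J * ∏ _p ∈ Pr, (1 + 1 / (z : ℝ)) ≤ (z : ℝ) ^ J * 3 := by gcongr
  have h12 : X * exp (-(2 * lam)) ≤ X * ∏ p ∈ Pr, (1 + -(1 / (p : ℝ))) := by gcongr
  linarith

end Pool.Agent.Lib.MP_852f56_nt
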