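import Pool.Agent.Lib.MP_852f56_nt.Primes

/-!
Families of pairs (product, sum minus number of entries) of multisets of integers at least two,
with large total weight.
-/

open Finset Real
open scoped ArithmeticFunction.Omega

namespace Pool.Agent.Lib.MP_852f56_nt

/-- `q` is a product of integers `b ≥ 2` whose numbers `b - 1` add up to `s`. -/
def Rl (q s : ℕ) : Prop :=
  ∃ β : Multiset ℕ, (∀ b ∈ β, 2 ≤ b) ∧ β.prod = q ∧ β.sum = s + β.card

lemma Rl.one : Rl 1 0 := ⟨0, by simp, by simp, by simp⟩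

lemma Rl.mul {q s b : ℕ} (h : Rl q s) (hb : 2 ≤ b) : Rl (q * b) (s + (b - 1)) := by
  obtain ⟨β, h1, h2, h3⟩ := h
  refine ⟨b ::ₘ β, fun x hx => ?_, ?_, ?_⟩
  · rcases Multiset.mem_cons.mp hx with rfl | hx
    · exact hb
    · exact h1 x hx
  · rw [Multiset.prod_cons, h2, mul_comm]
  · rw [Multiset.sum_cons, h3, Multiset.card_cons]; omega

lemma sum_lt_prod_add (β : Multiset ℕ) (h : ∀ b ∈ β, 2 ≤ b) :
    β.sum < β.prod + β.card ∧ 2 * β.card ≤ β.sum := by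
  induction β using Multiset.induction_on with
  | empty => simp
  | cons b β ih =>
    obtain ⟨h1, h2⟩ := ih fun x hx => h x (Multiset.mem_cons_of_mem hx)
    have h3 := h b (Multiset.mem_cons_self _ _)
    rw [Multiset.sum_cons, Multiset.prod_cons, Multiset.card_cons]
    refine ⟨?_, by omega⟩
    obtain ⟨q, hq⟩ : ∃ q, β.prod = q + 1 := ⟨β.prod - 1, by omega⟩
    obtain ⟨c, rfl⟩ := Nat.exists_eq_add_of_le h3
    rw [hq] at h1 ⊢
    nlinarith [Nat.zero_le (c * q)]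

lemma Rl.lt {q s : ℕ} (h : Rl q s) : s < q := by
  obtain ⟨β, h1, h2, h3⟩ := h
  have := (sum_lt_prod_add β h1).1
  omega

/-- Total weight of a family. -/
noncomputable def wt (B : Finset (ℕ × ℕ)) : ℝ := ∑ x ∈ B, (1 : ℝ) / x.1

/-- The invariant of the construction. -/
structure Fam (B : Finset (ℕ × ℕ)) (i t P Q : ℕ) : Prop where
  rl : ∀ x ∈ B, Rl x.1 x.2
  le : ∀ x ∈ B, x.1 ≤ Q
  om : ∀ x ∈ B, Ω x.1 ≤ (t + 1) * i
  sm : ∀ x ∈ B, ∀ p, p.Prime → p ∣ x.1 → p ≤ P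
  mult : ∀ q, (B.filter fun x => x.1 = q).card ≤ i ^ Ω q

lemma Fam.ne_zero {B : Finset (ℕ × ℕ)} {i t P Q : ℕ} (h : Fam B i t P Q) {x : ℕ × ℕ} (hx : x ∈ B) :
    x.1 ≠ 0 := by
  have := (h.rl x hx).lt
  omega

lemma fam_zero (t P : ℕ) : Fam {(1, 0)} 0 t P 1 where
  rl := by simp [Rl.one]
  le := by simp
  om := by simp
  sm := by
    intro x hx p hp h
    rw [mem_singleton.mp hx] at h
    exact absurd (Nat.dvd_one.mp h) hp.ne_one
  mult := by
    intro q
    by_cases h : q = 1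
    · subst h; simp [filter_singleton]
    · simp [filter_singleton, Ne.symm h]

lemma Fam.card_dvd {B : Finset (ℕ × ℕ)} {i t P Q : ℕ} (h : Fam B i t P Q) {q : ℕ} (hq : q ≠ 0) :
    (B.filter fun x => x.1 ∣ q).card ≤ (i + 1) ^ Ω q := by
  refine le_trans ?_ (sum_divisors_pow_le i hq)
  rw [card_eq_sum_card_fiberwise (f := fun x : ℕ × ℕ => x.1) (t := q.divisors)
    fun x hx => Nat.mem_divisors.mpr ⟨(mem_filter.mp hx).2, hq⟩]
  refine sum_le_sum fun e _ => le_trans (card_le_card fun x hx => ?_) (h.mult e)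
  exact mem_filter.mpr ⟨(mem_filter.mp (mem_filter.mp hx).1).1, (mem_filter.mp hx).2⟩

/-- New factors. -/
def facs (A t P P' : ℕ) : Finset ℕ := (few A t ×ˢ prs P P').image fun x => x.1 * x.2

/-- Adjoin a factor. -/
def ext (x : (ℕ × ℕ) × ℕ) : ℕ × ℕ := (x.1.1 * x.2, x.1.2 + (x.2 - 1))

/-- One step of the construction. -/
def nxt (B : Finset (ℕ × ℕ)) (A t P P' : ℕ) : Finset (ℕ × ℕ) := (B ×ˢ facs A t P P').image ext

lemma mem_few {A t a : ℕ} : a ∈ few A t ↔ 1 ≤ a ∧ a ≤ A ∧ Ω a ≤ t := by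
  simp [few, and_assoc]

lemma mem_prs {P P' p : ℕ} : p ∈ prs P P' ↔ P < p ∧ p ≤ P' ∧ p.Prime := by
  simp [prs, and_assoc]

lemma facs_prop {A t P P' b : ℕ} (hA : A ≤ P') (hb : b ∈ facs A t P P') :
    2 ≤ b ∧ P < b ∧ b ≤ A * P' ∧ Ω b ≤ t + 1 ∧ ∀ l, l.Prime → l ∣ b → l ≤ P' := by
  obtain ⟨⟨a, p⟩, hx, rfl⟩ := mem_image.mp hb
  obtain ⟨ha, hp⟩ := mem_product.mp hx
  obtain ⟨ha1, ha2, ha3⟩ := mem_few.mp ha
  obtain ⟨hp1, hp2, hp3⟩ := mem_prs.mp hp
  simp only at *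
  have h1 : p ≤ a * p := Nat.le_mul_of_pos_left _ ha1
  refine ⟨hp3.two_le.trans h1, by omega, Nat.mul_le_mul ha2 hp2, ?_, fun l hl h => ?_⟩
  · rw [ArithmeticFunction.cardFactors_mul (by omega) hp3.ne_zero,
      ArithmeticFunction.cardFactors_apply_prime hp3]
    omega
  · rcases (Nat.Prime.dvd_mul hl).mp h with h | h
    · exact (Nat.le_of_dvd ha1 h).trans (ha2.trans hA)
    · exact (Nat.le_of_dvd hp3.pos h).trans hp2

lemma Fam.next {B : Finset (ℕ × ℕ)} {i t P Q : ℕ} (h : Fam B i t P Q) {A P' : ℕ} (hA : A ≤ P)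
    (hP : P ≤ P') : Fam (nxt B A t P P') (i + 1) t P' (Q * (A * P')) := by
  have key : ∀ y ∈ nxt B A t P P', ∃ x ∈ B, ∃ b ∈ facs A t P P', y = ext (x, b) := by
    intro y hy
    obtain ⟨⟨x, b⟩, hx, rfl⟩ := mem_image.mp hy
    exact ⟨x, (mem_product.mp hx).1, b, (mem_product.mp hx).2, rfl⟩
  refine ⟨fun y hy => ?_, fun y hy => ?_, fun y hy => ?_, fun y hy l hl hd => ?_, fun q => ?_⟩
  · obtain ⟨x, hx, b, hb, rfl⟩ := key y hy
    exact (h.rl x hx).mul (facs_prop (hA.trans hP) hb).1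
  · obtain ⟨x, hx, b, hb, rfl⟩ := key y hy
    exact Nat.mul_le_mul (h.le x hx) (facs_prop (hA.trans hP) hb).2.2.1
  · obtain ⟨x, hx, b, hb, rfl⟩ := key y hy
    obtain ⟨h1, -, -, h2, -⟩ := facs_prop (hA.trans hP) hb
    have h3 := h.om x hx
    simp only [ext]
    rw [ArithmeticFunction.cardFactors_mul (h.ne_zero hx) (by omega), mul_add]
    omega
  · obtain ⟨x, hx, b, hb, rfl⟩ := key y hy
    rcases (Nat.Prime.dvd_mul hl).mp hd with h1 | h1
    · exact (h.sm x hx l hl h1).trans hP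
    · exact (facs_prop (hA.trans hP) hb).2.2.2.2 l hl h1
  · by_cases hq : q = 0
    · rw [filter_eq_empty_iff.mpr, card_empty]
      · exact Nat.zero_le _
      · intro y hy
        obtain ⟨x, hx, b, hb, rfl⟩ := key y hy
        have h1 := (facs_prop (hA.trans hP) hb).1
        rw [hq]
        exact mul_ne_zero (h.ne_zero hx) (by omega)
    · refine le_trans ?_ (h.card_dvd hq)
      refine le_trans (card_le_card (t := (B.filter fun x => x.1 ∣ q).image
        fun x => (q, x.2 + (q / x.1 - 1))) fun y hy => ?_) card_image_le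
      obtain ⟨hy1, hy2⟩ := mem_filter.mp hy
      obtain ⟨x, hx, b, hb, rfl⟩ := key y hy1
      simp only [ext] at hy2 ⊢
      refine mem_image.mpr ⟨x, mem_filter.mpr ⟨hx, hy2 ▸ dvd_mul_right _ _⟩, ?_⟩
      rw [← hy2, Nat.mul_div_cancel_left _ (Nat.pos_of_ne_zero (h.ne_zero hx))]

lemma two_le_nxt {B : Finset (ℕ × ℕ)} {i t P Q : ℕ} (h : Fam B i t P Q) {A P' : ℕ} (hA : A ≤ P')
    {y : ℕ × ℕ} (hy : y ∈ nxt B A t P P') : 2 ≤ y.1 := by
  obtain ⟨⟨x, b⟩, hx, rfl⟩ := mem_image.mp hy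
  have h1 := (facs_prop hA (mem_product.mp hx).2).1
  have h2 := h.ne_zero (mem_product.mp hx).1
  exact h1.trans (Nat.le_mul_of_pos_left _ (Nat.pos_of_ne_zero h2))

lemma Fam.wt_next {B : Finset (ℕ × ℕ)} {i t P Q : ℕ} (h : Fam B i t P Q) {A P' : ℕ} (hA : A ≤ P)
    (hP : 0 < P) :
    wt B * (∑ a ∈ few A t, (1 : ℝ) / a) *
      (∑ p ∈ prs P P', (1 : ℝ) / p - ((i + 1 : ℕ) : ℝ) ^ ((t + 1) * (i + 1)) / P) ≤
      wt (nxt B A t P P') := by
  classical
  have hP' : (0 : ℝ) < P := by exact_mod_cast hP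
  set good : (ℕ × ℕ) → ℕ → ℕ → Prop := fun x a p => ∀ x' ∈ B, ∀ a', x'.1 * a' = x.1 * a →
    x'.2 + a' * p = x.2 + a * p → a' = a with hgood
  set G := (B ×ˢ few A t).sigma fun y => (prs P P').filter (good y.1 y.2) with hG
  set φ : ((_ : (ℕ × ℕ) × ℕ) × ℕ) → ℕ × ℕ := fun w => ext (w.1.1, w.1.2 * w.2) with hφ
  have hinj : Set.InjOn φ G := by
    rintro ⟨⟨x, a⟩, p⟩ hw ⟨⟨x', a'⟩, p'⟩ hw' heq
    obtain ⟨h1, h2⟩ := mem_sigma.mp (mem_coe.mp hw)
    obtain ⟨h1', h2'⟩ := mem_sigma.mp (mem_coe.mp hw')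
    obtain ⟨hx, ha⟩ := mem_product.mp h1
    obtain ⟨hx', ha'⟩ := mem_product.mp h1'
    obtain ⟨hp, hg⟩ := mem_filter.mp h2
    obtain ⟨hp1, -, hp3⟩ := mem_prs.mp hp
    obtain ⟨-, -, hp3'⟩ := mem_prs.mp (mem_filter.mp h2').1
    obtain ⟨ha1, ha2, -⟩ := mem_few.mp ha
    obtain ⟨ha1', ha2', -⟩ := mem_few.mp ha'
    simp only [hφ, ext, Prod.mk.injEq] at *
    obtain ⟨e1, e2⟩ := heq
    have hpp : p = p' := by
      have : p ∣ x'.1 * (a' * p') := e1 ▸ (dvd_mul_left p a).mul_left _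
      rcases (Nat.Prime.dvd_mul hp3).mp this with h3 | h3
      · have := h.sm x' hx' p hp3 h3; omega
      · rcases (Nat.Prime.dvd_mul hp3).mp h3 with h4 | h4
        · have := Nat.le_of_dvd ha1' h4; omega
        · exact (Nat.prime_dvd_prime_iff_eq hp3 hp3').mp h4
    subst hpp
    have e3 : x'.1 * a' = x.1 * a := by
      apply Nat.eq_of_mul_eq_mul_right hp3.pos
      rw [mul_assoc, mul_assoc, e1]
    have h5 : 0 < a * p := Nat.mul_pos ha1 hp3.pos
    have h6 : 0 < a' * p := Nat.mul_pos ha1' hp3.pos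
    have e4 : a' = a := hg x' hx' a' e3 (by omega)
    subst e4
    have e5 : x = x' := Prod.ext (Nat.eq_of_mul_eq_mul_right ha1 e3).symm (by omega)
    rw [e5]
  have hsub : G.image φ ⊆ nxt B A t P P' := by
    intro y hy
    obtain ⟨⟨⟨x, a⟩, p⟩, hw, rfl⟩ := mem_image.mp hy
    obtain ⟨h1, h2⟩ := mem_sigma.mp hw
    obtain ⟨hx, ha⟩ := mem_product.mp h1
    exact mem_image.mpr ⟨(x, a * p), mem_product.mpr ⟨hx, mem_image.mpr
      ⟨(a, p), mem_product.mpr ⟨ha, (mem_filter.mp h2).1⟩, rfl⟩⟩, rfl⟩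
  refine le_trans ?_ (sum_le_sum_of_subset_of_nonneg hsub fun y _ _ => by positivity)
  rw [sum_image hinj, hG, sum_sigma, sum_product, wt, sum_mul_sum, sum_mul]
  refine sum_le_sum fun x hx => ?_
  rw [sum_mul]
  refine sum_le_sum fun a ha => ?_
  obtain ⟨ha1, ha2, ha3⟩ := mem_few.mp ha
  have hbad : ((prs P P').filter fun p => ¬ good x a p).card ≤ (i + 1) ^ ((t + 1) * (i + 1)) := by
    have hq : x.1 * a ≠ 0 := mul_ne_zero (h.ne_zero hx) (by omega)
    have h1 : Ω (x.1 * a) ≤ (t + 1) * (i + 1) := by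
      have := h.om x hx
      rw [ArithmeticFunction.cardFactors_mul (h.ne_zero hx) (by omega), mul_add]
      omega
    refine le_trans ?_ ((h.card_dvd hq).trans (Nat.pow_le_pow_right (by omega) h1))
    refine card_le_card_of_forall_subsingleton (fun p x' => ∃ a', x'.1 * a' = x.1 * a ∧
      x'.2 + a' * p = x.2 + a * p ∧ a' ≠ a) (fun p hp => ?_) fun x' hx' => ?_
    · have h2 := (mem_filter.mp hp).2
      simp only [hgood] at h2
      push Not at h2
      obtain ⟨x', hx', a', e1, e2, e3⟩ := h2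
      exact ⟨x', mem_filter.mpr ⟨hx', e1 ▸ dvd_mul_right _ _⟩, a', e1, e2, e3⟩
    · rintro p ⟨-, a1, e1, e2, e3⟩ p' ⟨-, a2, f1, f2, -⟩
      have h3 : a1 = a2 := Nat.eq_of_mul_eq_mul_left
        (Nat.pos_of_ne_zero (h.ne_zero (mem_filter.mp hx').1)) (e1.trans f1.symm)
      subst h3
      have h4 : ((a1 : ℤ) - a) * ((p : ℤ) - p') = 0 := by
        have g1 : (x'.2 : ℤ) + a1 * p = x.2 + a * p := by exact_mod_cast e2
        have g2 : (x'.2 : ℤ) + a1 * p' = x.2 + a * p' := by exact_mod_cast f2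
        linear_combination g1 - g2
      rcases mul_eq_zero.mp h4 with h5 | h5
      · exact absurd (by omega) e3
      · omega
  have h2 : ∑ p ∈ (prs P P').filter (fun p => ¬ good x a p), (1 : ℝ) / p ≤
      ((i + 1 : ℕ) : ℝ) ^ ((t + 1) * (i + 1)) / P := by
    refine (sum_le_card_nsmul _ _ (1 / (P : ℝ)) fun p hp => ?_).trans ?_
    · have : (P : ℝ) ≤ p := by exact_mod_cast (mem_prs.mp (mem_filter.mp hp).1).1.le
      gcongr
    · rw [nsmul_eq_mul, mul_one_div]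
      gcongr
      exact_mod_cast hbad
  have h3 := sum_filter_add_sum_filter_not (prs P P') (good x a) fun p => (1 : ℝ) / p
  calc _ ≤ 1 / (x.1 : ℝ) * (1 / (a : ℝ)) * ∑ p ∈ (prs P P').filter (good x a), (1 : ℝ) / p := by
        gcongr
        linarith
    _ = _ := by
        rw [mul_sum]
        refine sum_congr rfl fun p _ => ?_
        simp only [hφ, ext]
        push_cast
        ring

lemma card_roots_le {l : ℕ} (hl : l.Prime) (q c : ℤ) (S : Finset ℕ) (hS : ∀ b ∈ S, b < l) :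
    (S.filter fun b : ℕ => (l : ℤ) ∣ q * b * (c + b) + 1).card ≤ 2 := by
  by_contra hcon
  obtain ⟨b1, b2, b3, h1, h2, h3, h12, h13, h23⟩ := two_lt_card_iff.mp (not_le.mp hcon)
  have hl' : Prime (l : ℤ) := Nat.prime_iff_prime_int.mp hl
  have hne : ∀ {a b : ℕ}, a ∈ S → b ∈ S → (l : ℤ) ∣ (a : ℤ) - b → a = b := by
    intro a b ha hb h
    have h4 := hS a ha
    have h5 := hS b hb
    have := Int.eq_zero_of_abs_lt_dvd h (by rw [abs_lt]; constructor <;> omega)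
    omega
  obtain ⟨m1, d1⟩ := mem_filter.mp h1
  obtain ⟨m2, d2⟩ := mem_filter.mp h2
  obtain ⟨m3, d3⟩ := mem_filter.mp h3
  have hq : ¬ (l : ℤ) ∣ q := by
    intro h
    have : (l : ℤ) ∣ 1 := (dvd_add_right ((h.mul_right _).mul_right _)).mp d1
    exact hl'.not_dvd_one this
  have key : ∀ {a b : ℕ}, a ∈ S → b ∈ S → a ≠ b → (l : ℤ) ∣ q * a * (c + a) + 1 →
      (l : ℤ) ∣ q * b * (c + b) + 1 → (l : ℤ) ∣ c + a + b := by
    intro a b ha hb hab da db
    have h4 : (l : ℤ) ∣ q * (((a : ℤ) - b) * (c + a + b)) := by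
      have := dvd_sub da db
      rwa [show q * a * (c + a) + 1 - (q * b * (c + b) + 1) = q * (((a : ℤ) - b) * (c + a + b)) by
        ring] at this
    rcases hl'.dvd_or_dvd h4 with h5 | h5
    · exact absurd h5 hq
    · rcases hl'.dvd_or_dvd h5 with h6 | h6
      · exact absurd (hne ha hb h6) hab
      · exact h6
  have h4 := dvd_sub (key m1 m2 h12 d1 d2) (key m1 m3 h13 d1 d3)
  rw [show c + b1 + b2 - (c + b1 + b3) = (b2 : ℤ) - b3 by ring] at h4
  exact h23 (hne m2 m3 h4)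

lemma anti_conc (B : Finset (ℕ × ℕ)) {A t P P' l : ℕ} (hA : A ≤ P') (hP : 0 < P) (hl : l.Prime)
    (hlA : A * P' < l) (κ : ℤ) :
    ∑ y ∈ (nxt B A t P P').filter (fun y => (l : ℤ) ∣ y.1 * (κ + y.2) + 1), (1 : ℝ) / y.1 ≤
      2 / P * wt B := by
  have hP' : (0 : ℝ) < P := by exact_mod_cast hP
  rw [nxt, filter_image]
  refine (sum_image_le_of_nonneg fun y _ => by positivity).trans ?_
  rw [sum_filter, sum_product, wt, mul_sum]
  refine sum_le_sum fun x _ => ?_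
  rw [← sum_filter]
  have h1 := card_roots_le hl x.1 (κ + x.2 - 1) (facs A t P P')
    fun b hb => lt_of_le_of_lt (facs_prop hA hb).2.2.1 hlA
  have h2 : (facs A t P P').filter (fun b => (l : ℤ) ∣ (ext (x, b)).1 * (κ + (ext (x, b)).2) + 1) =
      (facs A t P P').filter fun b : ℕ => (l : ℤ) ∣ x.1 * b * (κ + x.2 - 1 + b) + 1 := by
    refine filter_congr fun b hb => ?_
    have := (facs_prop hA hb).1
    simp only [ext]
    push_cast [Nat.cast_sub (show 1 ≤ b by omega)]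
    rw [show κ + (x.2 + ((b : ℤ) - 1)) = κ + x.2 - 1 + b by ring]
  rw [h2]
  refine (sum_le_card_nsmul _ _ (1 / (P : ℝ) * (1 / (x.1 : ℝ))) fun b hb => ?_).trans ?_
  · have : (P : ℝ) ≤ b := by exact_mod_cast (facs_prop hA (mem_filter.mp hb).1).2.1.le
    simp only [ext]
    push_cast
    rw [mul_comm (x.1 : ℝ), ← one_div_mul_one_div]
    gcongr
  · rw [nsmul_eq_mul, show (2 : ℝ) / P * (1 / x.1) = 2 * (1 / P * (1 / x.1)) by ring]
    gcongr
    exact_mod_cast h1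

end Pool.Agent.Lib.MP_852f56_nt
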