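import Pool.Agent.Lib.MP_852f56_nt.Main

/-!
The asymptotic bound.
-/

open Finset Real Filter

namespace Pool.Agent.Lib.MP_852f56_nt

lemma pow_six_le {n : ℕ} (hn : 80 ≤ n) : 2 ^ 33 * n ^ 6 ≤ 2 ^ n := by
  induction n, hn using Nat.le_induction with
  | base => norm_num
  | succ n hn ih =>
    have h1 : (n + 1) ^ 6 ≤ 2 * n ^ 6 := by
      have h2 : (10 * (n + 1)) ^ 6 ≤ (11 * n) ^ 6 := Nat.pow_le_pow_left (by omega) _
      rw [mul_pow, mul_pow] at h2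
      omega
    rw [pow_succ 2 n]
    omega

lemma le_two_mul_log {a : ℕ} {x y : ℝ} (hx : 0 < x) (h : (2 : ℝ) ^ a ≤ 4 * x) (hy : log x = y)
    (h4 : 4 ≤ y) : (a : ℝ) ≤ 2 * y := by
  have h1 := log_le_log (by positivity) h
  rw [log_pow, log_mul (by norm_num) hx.ne', hy, show (4 : ℝ) = 2 ^ 2 by norm_num, log_pow] at h1
  have h2 := log_two_gt_d9
  have h3 := log_two_lt_d9
  have h5 : (a : ℝ) * 0.69 ≤ a * log 2 := by gcongr; linarith
  push_cast at h1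
  linarith

open Classical in
theorem final_bound : ∀ᶠ N : ℕ in atTop, ∀ M : ℕ,
    (((range N).filter fun k => Uniq (M + k)).card : ℝ) ≤
      N * exp (-(1 / 10 ^ 9 * log N / (log (log N) * log (log (log N)) ^ 3))) := by
  obtain ⟨l0, h0⟩ := main_bound
  have t1 : Tendsto (fun N : ℕ => log N) atTop atTop :=
    tendsto_log_atTop.comp tendsto_natCast_atTop_atTop
  have t2 := tendsto_log_atTop.comp t1
  have t3 := tendsto_log_atTop.comp t2
  filter_upwards [eventually_ge_atTop (2 ^ 2 ^ 2 ^ (l0 + 9)), t1.eventually_ge_atTop 4,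
    t2.eventually_ge_atTop 4, t3.eventually_ge_atTop 4] with N hN hL1 hL2 hL3 M
  simp only [Function.comp] at hL2 hL3
  have hN0 : N ≠ 0 := (lt_of_lt_of_le (by positivity) hN).ne'
  obtain ⟨n1, a1, b1, c1⟩ : ∃ n1, 2 ^ n1 ≤ N ∧ N < 2 ^ (n1 + 1) ∧ 2 ^ 2 ^ (l0 + 9) ≤ n1 :=
    ⟨Nat.log 2 N, Nat.pow_log_le_self 2 hN0, Nat.lt_pow_succ_log_self (by omega) N,
      Nat.le_log_of_pow_le (by omega) hN⟩
  have hn1 : n1 ≠ 0 := (lt_of_lt_of_le (by positivity) c1).ne'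
  obtain ⟨n2, a2, b2, c2⟩ : ∃ n2, 2 ^ n2 ≤ 2 * n1 ∧ n1 < 2 ^ n2 ∧ 2 ^ (l0 + 9) ≤ n2 := by
    refine ⟨Nat.log 2 n1 + 1, ?_, Nat.lt_pow_succ_log_self (by omega) n1,
      (Nat.le_log_of_pow_le (by omega) c1).trans (by omega)⟩
    have := Nat.pow_log_le_self 2 hn1
    rw [pow_succ]; omega
  have hn2 : n2 ≠ 0 := (lt_of_lt_of_le (by positivity) c2).ne'
  obtain ⟨n3, a3, b3, c3⟩ : ∃ n3, 2 ^ n3 ≤ 2 * n2 ∧ n2 < 2 ^ n3 ∧ l0 + 9 ≤ n3 := by
    refine ⟨Nat.log 2 n2 + 1, ?_, Nat.lt_pow_succ_log_self (by omega) n2,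
      (Nat.le_log_of_pow_le (by omega) c2).trans (by omega)⟩
    have := Nat.pow_log_le_self 2 hn2
    rw [pow_succ]; omega
  have h80 : 80 ≤ n2 := le_trans (le_trans (by norm_num)
    (Nat.pow_le_pow_right (by omega) (show 9 ≤ l0 + 9 by omega))) c2
  have h32 : n3 ≤ n2 := by
    have h1 : 2 ^ n3 ≤ 2 ^ n2 := a3.trans (by
      obtain ⟨v, rfl⟩ : ∃ v, n2 = v + 2 := ⟨n2 - 2, by omega⟩
      have : v < 2 ^ v := Nat.lt_two_pow_self
      rw [pow_add]; omega)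
    exact (Nat.pow_le_pow_iff_right (by omega)).mp h1
  obtain ⟨r, hr⟩ : ∃ r, r = 164 * (3 * n3) * n2 := ⟨_, rfl⟩
  obtain ⟨w, hw⟩ : ∃ w, w = (3 * n3) ^ 2 * r ^ 2 := ⟨_, rfl⟩
  have hr0 : 6 ≤ r := by rw [hr]; nlinarith
  have hr1 : r ≤ 2 ^ (3 * n3) := by
    have h1 : n3 ≤ 2 ^ n3 := Nat.lt_two_pow_self.le
    have h2 : 2 ^ 9 ≤ 2 ^ n3 := Nat.pow_le_pow_right (by omega) (by omega)
    calc r = 492 * n3 * n2 := by rw [hr]; ring
      _ ≤ 2 ^ n3 * 2 ^ n3 * 2 ^ n3 := by gcongr; omega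
      _ = _ := by ring
  have hrw : r ≤ w := by
    rw [hw]
    exact (Nat.le_self_pow (by omega) r).trans (Nat.le_mul_of_pos_left _ (Nat.pow_pos (by omega)))
  have hw1 : 1000 * w ≤ n1 := by
    have h1 := pow_six_le h80
    have h2 : w ≤ (3 * n2) ^ 2 * (164 * (3 * n2) * n2) ^ 2 := by rw [hw, hr]; gcongr
    have h3 : (3 * n2) ^ 2 * (164 * (3 * n2) * n2) ^ 2 = 2178576 * n2 ^ 6 := by ring
    omega
  obtain ⟨m, hm1, hm2, hm3⟩ : ∃ m, 1 ≤ m ∧ 1000 * w * m ≤ n1 ∧ n1 ≤ 2000 * w * m := by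
    have h1 : 1 ≤ n1 / (1000 * w) := (Nat.le_div_iff_mul_le (by omega)).mpr (by omega)
    refine ⟨n1 / (1000 * w), h1, Nat.mul_div_le _ _, ?_⟩
    have h2 := Nat.lt_mul_div_succ n1 (show 0 < 1000 * w by omega)
    have h3 : 1000 * w * 1 ≤ 1000 * w * (n1 / (1000 * w)) := Nat.mul_le_mul_left _ h1
    rw [mul_add] at h2
    linarith
  have h1 := h0 (3 * n3) r m n2 (by omega) (by omega) hm1 hr1 hr.ge (by
    have h2 : 164 * (3 * n3) ≤ r := by rw [hr]; exact Nat.le_mul_of_pos_right _ (by omega)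
    have h3 : 164 * (3 * n3) * m ≤ 1000 * w * m := Nat.mul_le_mul_right _ (by omega)
    have h4 : 164 * m * (3 * n3) = 164 * (3 * n3) * m := by ring
    omega) M N
  rw [← hw] at h1
  refine h1.trans ?_
  have hN' : (0 : ℝ) < N := by exact_mod_cast Nat.pos_of_ne_zero hN0
  have h2 : (2 : ℝ) ^ (380 * w * m) ≤ N / 2 ^ (r * m) := by
    rw [le_div_iff₀ (by positivity), ← pow_add]
    have h3 : r * m ≤ w * m := Nat.mul_le_mul_right _ hrw
    have h4 : 2 ^ (380 * w * m + r * m) ≤ N :=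
      (Nat.pow_le_pow_right (by omega) (by linarith [Nat.zero_le (w * m)])).trans a1
    exact_mod_cast h4
  have hlog1 := log_two_gt_d9
  have hlog2 := log_two_lt_d9
  have hrm : (6 : ℝ) ≤ (r * m : ℕ) := by
    exact_mod_cast hr0.trans (Nat.le_mul_of_pos_right _ hm1)
  have h3 : 4 / (2 : ℝ) ^ (r * m) ≤ exp (-(((r * m : ℕ) : ℝ) / 3)) := by
    have e1 : (2 : ℝ) ^ (r * m) = exp ((r * m : ℕ) * log 2) := by
      rw [exp_nat_mul, exp_log (by norm_num)]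
    have e2 : (4 : ℝ) = exp (2 * log 2) := by
      rw [show (2 : ℝ) * log 2 = (2 : ℕ) * log 2 by norm_num, exp_nat_mul, exp_log (by norm_num)]
      norm_num
    rw [e1, e2, ← exp_sub, exp_le_exp]
    nlinarith
  have hA : log N ≤ n1 := by
    have h4 : (N : ℝ) ≤ 2 ^ (n1 + 1) := by exact_mod_cast b1.le
    have h5 := log_le_log hN' h4
    have h6 : (3 : ℝ) ≤ n1 := by exact_mod_cast (show 3 ≤ n1 by omega)
    rw [log_pow] at h5
    push_cast at h5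
    nlinarith
  have hB : (n1 : ℝ) ≤ 2 * log N := by
    refine le_two_mul_log hN' ?_ rfl hL1
    have : (2 : ℝ) ^ n1 ≤ N := by exact_mod_cast a1
    linarith
  have hC : (n2 : ℝ) ≤ 2 * log (log N) := by
    refine le_two_mul_log (by linarith) ?_ rfl hL2
    have : (2 : ℝ) ^ n2 ≤ 2 * n1 := by exact_mod_cast a2
    linarith
  have hD : (n3 : ℝ) ≤ 2 * log (log (log N)) := by
    refine le_two_mul_log (by linarith) ?_ rfl hL3
    have : (2 : ℝ) ^ n3 ≤ 2 * n2 := by exact_mod_cast a3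
    linarith
  have h4 : 1 / 10 ^ 9 * log N / (log (log N) * log (log (log N)) ^ 3) ≤ ((r * m : ℕ) : ℝ) / 3 := by
    have h5 : n1 ≤ 8856000 * (n2 * n3 ^ 3) * (r * m) := by
      refine hm3.trans (le_of_eq ?_)
      rw [hw]
      nth_rw 1 [sq r]
      nth_rw 1 [hr]
      ring
    have h6 : (n1 : ℝ) ≤ 8856000 * (n2 * n3 ^ 3) * (r * m : ℕ) := by exact_mod_cast h5
    generalize log (log (log (N : ℝ))) = L3 at *
    generalize log (log (N : ℝ)) = L2 at *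
    have h7 : (n2 : ℝ) * n3 ^ 3 ≤ (2 * L2) * (2 * L3) ^ 3 := by gcongr
    have h8 : 0 < L2 * L3 ^ 3 := by positivity
    rw [div_le_iff₀ h8]
    have h9 : (n1 : ℝ) ≤ 8856000 * ((2 * L2) * (2 * L3) ^ 3) * (r * m : ℕ) :=
      h6.trans (by gcongr)
    have h10 : 0 ≤ ((r * m : ℕ) : ℝ) * (L2 * L3 ^ 3) := by positivity
    nlinarith
  calc _ ≤ N * (4 / (2 : ℝ) ^ (r * m)) := by
        have : (N : ℝ) * (4 / 2 ^ (r * m)) = 4 * (N / 2 ^ (r * m)) := by ring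
        linarith
    _ ≤ N * exp (-(((r * m : ℕ) : ℝ) / 3)) := by gcongr
    _ ≤ _ := by gcongr

theorem density_bound : ∃ c : ℝ, 0 < c ∧ ∃ N₀ : ℕ, ∀ N : ℕ, N₀ ≤ N → ∀ M : ℕ,
    (Set.ncard {k : ℕ | M < k ∧ k ≤ M + N ∧ 2 < k ∧ Uniq k} : ℝ) ≤
      N * exp (-(c * log N / (log (log N) * log (log (log N)) ^ 3))) := by
  classical
  obtain ⟨N₀, h⟩ := eventually_atTop.mp final_bound
  refine ⟨1 / 10 ^ 9, by norm_num, N₀, fun N hN M => le_trans ?_ (h N hN (M + 1))⟩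
  have h1 : {k : ℕ | M < k ∧ k ≤ M + N ∧ 2 < k ∧ Uniq k} ⊆
      ↑(((range N).filter fun k => Uniq (M + 1 + k)).image fun k => M + 1 + k) := by
    rintro k ⟨h1, h2, -, h3⟩
    obtain ⟨j, rfl⟩ := Nat.exists_eq_add_of_le (show M + 1 ≤ k from h1)
    exact mem_coe.mpr (mem_image.mpr ⟨j, mem_filter.mpr ⟨mem_range.mpr (by omega), h3⟩, rfl⟩)
  have h2 := Set.ncard_le_ncard h1 (Finset.finite_toSet _)
  rw [Set.ncard_coe_finset] at h2
  exact_mod_cast h2.trans card_image_le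

end Pool.Agent.Lib.MP_852f56_nt
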