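import Pool.Agent.Lib.MP_852f56_nt.Params

/-!
The non-asymptotic bound for the number of exceptional values.
-/

open Finset Real

namespace Pool.Agent.Lib.MP_852f56_nt

/-- The equation has only one solution in `k` positive integers. -/
def Uniq (k : ℕ) : Prop :=
  ∀ s t : Multiset ℕ, (Multiset.card s = k ∧ (∀ a ∈ s, 0 < a) ∧ s.sum = s.prod) →
    (Multiset.card t = k ∧ (∀ a ∈ t, 0 < a) ∧ t.sum = t.prod) → s = t

lemma not_uniq {k q s n e : ℕ} (hk : 2 < k) (h : Rl q s) (hq : 2 ≤ q) (hn : 2 ≤ n) (he : 2 ≤ e)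
    (hqk : q + 2 ≤ k) (heq : q * n * e + 2 = k + s + n + e) : ¬ Uniq k := by
  intro hU
  have hlt := h.lt
  obtain ⟨β, h1, h2, h3⟩ := h
  have h4 := (sum_lt_prod_add β h1).2
  have h5 : β.card ≠ 0 := by
    intro h
    rw [Multiset.card_eq_zero.mp h] at h2
    simp at h2; omega
  obtain ⟨v, hv⟩ : ∃ v, k = β.card + 2 + v := ⟨k - (β.card + 2), by omega⟩
  obtain ⟨k', rfl⟩ : ∃ k', k = k' + 2 := ⟨k - 2, by omega⟩
  have h6 := hU ((k' + 2) ::ₘ 2 ::ₘ Multiset.replicate k' 1)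
    (e ::ₘ n ::ₘ (β + Multiset.replicate v 1)) ⟨by simp, ?_, ?_⟩ ⟨?_, ?_, ?_⟩
  · have h7 := congrArg (Multiset.count 1) h6
    have h8 : Multiset.count 1 β = 0 :=
      Multiset.count_eq_zero.mpr fun h => absurd (h1 1 h) (by norm_num)
    rw [Multiset.count_cons_of_ne (by omega), Multiset.count_cons_of_ne (by omega),
      Multiset.count_cons_of_ne (by omega), Multiset.count_cons_of_ne (by omega),
      Multiset.count_add, h8, Multiset.count_replicate_self, Multiset.count_replicate_self] at h7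
    omega
  · intro a ha
    simp only [Multiset.mem_cons, Multiset.mem_replicate] at ha
    omega
  · simp; omega
  · simp; omega
  · intro a ha
    simp only [Multiset.mem_cons, Multiset.mem_add, Multiset.mem_replicate] at ha
    rcases ha with rfl | rfl | ha | ha
    · omega
    · omega
    · have := h1 a ha; omega
    · omega
  · simp only [Multiset.sum_cons, Multiset.sum_add, Multiset.sum_replicate, Multiset.prod_cons,
      Multiset.prod_add, Multiset.prod_replicate, h2, h3, smul_eq_mul, mul_one, one_pow]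
    rw [show e * (n * q) = q * n * e by ring]
    omega

lemma survives {B : Finset (ℕ × ℕ)} {Q X k : ℕ} (hB : ∀ x ∈ B, Rl x.1 x.2 ∧ 2 ≤ x.1 ∧ x.1 ≤ Q)
    (hX : 1 ≤ X) (hk : 2 * (2 * Q * X) ≤ k) (hU : Uniq k) :
    ∀ i ∈ B ×ˢ range X, ¬ dd X i ∣ k + cc X i := by
  rintro i hi ⟨e, he⟩
  obtain ⟨h1, h2⟩ := mem_product.mp hi
  obtain ⟨h3, h4, h5⟩ := hB _ h1
  have h6 := dd_add (X := X) (w := i) (by omega)
  have h7 := cc_add i hX
  have h8 : dd X i ≤ 2 * Q * X := (dd_le (by omega) (mem_range.mp h2)).trans (by gcongr)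
  have h9 : Q * 1 ≤ Q * X := Nat.mul_le_mul_left _ hX
  have h10 : 2 * Q * X = 2 * (Q * X) := by ring
  have h11 : 2 ≤ e := by
    by_contra h
    have : dd X i * e ≤ dd X i * 1 := Nat.mul_le_mul_left _ (by omega)
    omega
  refine not_uniq (n := X + 1 + i.2) (by omega) h3 h4 (by omega) h11 (by omega) ?_ hU
  rw [← h6, add_mul, ← he]
  omega

lemma V_small {l r m n : ℕ} {W : ℝ} (hl : 1 ≤ l) (hn : 1 ≤ n) (hr : r ≤ 2 ^ l)
    (h1 : 164 * l * n ≤ r) (h2 : 2 * m * (82 * l) + 1 ≤ 2 ^ n) (hW : 4 ^ r ≤ W) :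
    (((2 * m * (82 * l) : ℕ) : ℝ) + 1) ^ (82 * l) *
      (1 + log (2 * 2 ^ (27 * (l ^ 2 * r ^ 2)) * 2 ^ (54 * (l ^ 2 * r ^ 2)) : ℕ) +
        3 * (2 / 2 ^ (9 * l ^ 2 * r) * W)) +
      (2 * m * (82 * l) : ℕ) * (2 / (2 ^ (l * r ^ 2) : ℕ) * W) ≤
      1 / 2 ^ (r + 4) * (1 / 2 ^ (9 * l + 1) / 2 * W) := by
  have hW0 : 0 < W := lt_of_lt_of_le (by positivity) hW
  have hlr : 164 * l ≤ r := le_trans (Nat.le_mul_of_pos_right _ hn) h1
  have hnr : 164 * n ≤ r := le_trans (by nlinarith) h1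
  have h3 : ((2 * m * (82 * l) : ℕ) : ℝ) + 1 ≤ 2 ^ n := by exact_mod_cast h2
  have h4 : (((2 * m * (82 * l) : ℕ) : ℝ) + 1) ^ (82 * l) ≤ 2 ^ (82 * l * n) := by
    rw [mul_comm (82 * l) n, pow_mul 2 n]; gcongr
  set g := 82 * l * n with hg
  have hgr : 2 * g ≤ r := by rw [hg]; linarith
  have h5 : 1 + log (2 * 2 ^ (27 * (l ^ 2 * r ^ 2)) * 2 ^ (54 * (l ^ 2 * r ^ 2)) : ℕ) ≤
      2 ^ (7 + 4 * l) := by
    rw [show 2 * 2 ^ (27 * (l ^ 2 * r ^ 2)) * 2 ^ (54 * (l ^ 2 * r ^ 2)) =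
      2 ^ (81 * (l ^ 2 * r ^ 2) + 1) by ring, log_two_pow]
    have h6 : l ^ 2 * r ^ 2 ≤ 2 ^ (4 * l) := by
      calc l ^ 2 * r ^ 2 ≤ (2 ^ l) ^ 2 * (2 ^ l) ^ 2 := by gcongr; omega
        _ = _ := by ring
    have h7 : ((l ^ 2 * r ^ 2 : ℕ) : ℝ) ≤ 2 ^ (4 * l) := by exact_mod_cast h6
    have h8 : (1 : ℝ) ≤ 2 ^ (4 * l) := one_le_pow₀ (by norm_num)
    have h9 : ((81 * (l ^ 2 * r ^ 2) + 1 : ℕ) : ℝ) * log 2 ≤ (81 * 2 ^ (4 * l) + 1) * 1 := by
      have := log_two_lt_d9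
      gcongr
      · rw [Nat.cast_add, Nat.cast_mul 81]; push_cast at *; linarith
      · linarith
    rw [pow_add]; linarith
  set E := r + 9 * l + 8 with hE
  have ha : (2 : ℝ) ^ g * 2 ^ (7 + 4 * l) ≤ 1 / 2 ^ E * W := by
    have h6 := two_pow_div (a := g + (7 + 4 * l)) (e := E) (b := 2 * r) (by omega)
    rw [div_le_iff₀ (by positivity), pow_add, pow_mul 2 2 r] at h6
    refine h6.trans ?_
    norm_num
    gcongr
  have hb : (2 : ℝ) ^ g * (3 * (2 / 2 ^ (9 * l ^ 2 * r) * W)) ≤ 1 / 2 ^ E * W := by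
    have h6 := two_pow_div (a := g + 3) (e := E) (b := 9 * l ^ 2 * r) (by
      have : 9 * 1 * r ≤ 9 * l ^ 2 * r := by gcongr; exact Nat.one_le_pow _ _ hl
      omega)
    calc _ = 2 ^ g * 6 / 2 ^ (9 * l ^ 2 * r) * W := by ring
      _ ≤ 2 ^ (g + 3) / 2 ^ (9 * l ^ 2 * r) * W := by rw [pow_add]; gcongr; norm_num
      _ ≤ _ := by gcongr
  have hc : ((2 * m * (82 * l) : ℕ) : ℝ) * (2 / (2 ^ (l * r ^ 2) : ℕ) * W) ≤ 1 / 2 ^ E * W := by
    have h6 := two_pow_div (a := n + 1) (e := E) (b := l * r ^ 2) (by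
      have h7 : 1 * (164 * r) ≤ l * r ^ 2 := by
        rw [sq]; gcongr; omega
      omega)
    calc _ ≤ 2 ^ n * (2 / (2 ^ (l * r ^ 2) : ℕ) * W) := by gcongr; linarith
      _ = 2 ^ (n + 1) / 2 ^ (l * r ^ 2) * W := by push_cast; ring
      _ ≤ _ := by gcongr
  have hd : (1 : ℝ) / 2 ^ (r + 4) * (1 / 2 ^ (9 * l + 1) / 2 * W) = 4 * (1 / 2 ^ E * W) := by
    rw [hE]; field_simp; ring
  have he : 0 ≤ 1 / 2 ^ E * W := by positivity
  have hf : (((2 * m * (82 * l) : ℕ) : ℝ) + 1) ^ (82 * l) *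
      (1 + log (2 * 2 ^ (27 * (l ^ 2 * r ^ 2)) * 2 ^ (54 * (l ^ 2 * r ^ 2)) : ℕ) +
        3 * (2 / 2 ^ (9 * l ^ 2 * r) * W)) ≤
      2 ^ g * (2 ^ (7 + 4 * l) + 3 * (2 / 2 ^ (9 * l ^ 2 * r) * W)) := by
    have := log_natCast_nonneg (2 * 2 ^ (27 * (l ^ 2 * r ^ 2)) * 2 ^ (54 * (l ^ 2 * r ^ 2)))
    gcongr
  rw [hd, mul_add] at *
  linarith

open Classical in
theorem main_bound : ∃ l0 : ℕ, ∀ l r m n : ℕ, l0 ≤ l → 1 ≤ n → 1 ≤ m → r ≤ 2 ^ l →
    164 * l * n ≤ r → 164 * m * l + 1 ≤ 2 ^ n → ∀ M N : ℕ,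
    (((range N).filter fun k => Uniq (M + k)).card : ℝ) ≤
      N / 2 ^ (r * m) + 3 * 2 ^ (380 * (l ^ 2 * r ^ 2) * m) := by
  obtain ⟨l1, h1⟩ := fam_exists
  obtain ⟨l2, h2⟩ := rough_exists
  refine ⟨l1 + l2 + 1, fun l r m n hl hn hm hr hlr hmn M N => ?_⟩
  have hlr' : 164 * l ≤ r := le_trans (Nat.le_mul_of_pos_right _ hn) hlr
  obtain ⟨B, hB, hW, hAC⟩ := h1 l r (by omega) (by omega) hr
  have hρ := h2 l r _ _ (by omega) (by omega) hr rfl rfl
  set w := l ^ 2 * r ^ 2 with hw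
  have hl1 : 1 ≤ l := by omega
  have hw1 : l * r ^ 2 ≤ w := by rw [hw]; gcongr; nlinarith
  have hw2 : 1 ≤ l * r ^ 2 := Nat.mul_pos hl1 (Nat.pow_pos (by omega))
  have hy : 2 * 2 ^ (27 * w) * 2 ^ (54 * w) = 2 ^ (81 * w + 1) := by ring
  have h3 := top_bound (B := B) (Q := 2 ^ (27 * w)) (X := 2 ^ (54 * w)) (z := 2 ^ (l * r ^ 2))
    (fun x hx => ⟨(hB x hx).1.lt, (hB x hx).2.2⟩) (le_of_eq (by ring))
    (Nat.le_self_pow (by omega) 2) (Nat.pow_le_pow_right (by omega) (by omega))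
    (u := 82 * l) (m := m) (by
      rw [hy, ← pow_mul]
      refine Nat.pow_le_pow_right (by omega) ?_
      rw [show l * r ^ 2 * (82 * l) = 82 * w by rw [hw]; ring]
      omega)
    (η := 2 / 2 ^ (9 * l ^ 2 * r)) (δ := 1 / 2 ^ (r + 4)) (by positivity) (by positivity)
    (by rw [div_le_one (by positivity)]; exact one_le_pow₀ (by norm_num))
    (fun p hp hz => hAC p hp (lt_of_le_of_lt (Nat.pow_le_pow_right (by omega) (by
      rw [show 27 * l ^ 2 * r = l * (27 * l * r) by ring, sq]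
      gcongr
      omega)) hz))
    hρ (by
      refine le_trans ?_ (mul_le_mul_of_nonneg_left hW (by positivity))
      rw [show (4 : ℝ) = 2 ^ 2 by norm_num, ← pow_mul, div_div, ← pow_succ, one_div_mul_eq_div,
        le_div_iff₀ (by positivity), one_mul]
      exact pow_le_pow_right₀ (by norm_num) (by omega))
    (V_small hl1 hn hr hlr (by linarith) hW) M N
  have h4 : ((range N).filter fun k => Uniq (M + k)) ⊆ range (2 ^ (81 * w + 2)) ∪
      (range N).filter fun k => ∀ i ∈ B ×ˢ range (2 ^ (54 * w)),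
        ¬ dd (2 ^ (54 * w)) i ∣ M + k + cc (2 ^ (54 * w)) i := by
    intro k hk
    obtain ⟨hk1, hk2⟩ := mem_filter.mp hk
    by_cases h : k < 2 ^ (81 * w + 2)
    · exact mem_union_left _ (mem_range.mpr h)
    · refine mem_union_right _ (mem_filter.mpr ⟨hk1, survives hB Nat.one_le_two_pow ?_ hk2⟩)
      rw [hy, ← pow_succ']
      exact (not_lt.mp h).trans (Nat.le_add_left _ _)
  have h5 := (card_le_card h4).trans (card_union_le _ _)
  rw [card_range] at h5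
  have h6 := (Nat.cast_le (α := ℝ)).mpr h5
  rw [Nat.cast_add, Nat.cast_pow, Nat.cast_ofNat] at h6
  have h7 : (2 : ℝ) ^ (81 * w + 2) ≤ 2 ^ (380 * w * m) := by
    refine pow_le_pow_right₀ (by norm_num) ?_
    have : 380 * w * 1 ≤ 380 * w * m := Nat.mul_le_mul_left _ hm
    omega
  have h8 : (((2 ^ (54 * w) : ℕ) : ℝ) ^ 2 * (2 * 2 ^ (27 * w) * 2 ^ (54 * w) : ℕ)) ^ (2 * m) ≤
      2 ^ (380 * w * m) := by
    rw [hy]
    push_cast
    rw [← pow_mul, ← pow_add, ← pow_mul]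
    refine pow_le_pow_right₀ (by norm_num) ?_
    rw [show 380 * w * m = 190 * w * (2 * m) by ring]
    exact Nat.mul_le_mul_right _ (by omega)
  have h9 : (N : ℝ) * (12 * (1 / 2 ^ (r + 4))) ^ m ≤ N / 2 ^ (r * m) := by
    have h10 : (12 : ℝ) * (1 / 2 ^ (r + 4)) ≤ 1 / 2 ^ r := by
      rw [pow_add, mul_one_div, div_le_div_iff₀ (by positivity) (by positivity)]
      have : (0 : ℝ) < 2 ^ r := by positivity
      linarith
    calc _ ≤ (N : ℝ) * (1 / 2 ^ r) ^ m := by gcongr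
      _ = _ := by rw [one_div_pow, ← pow_mul, mul_one_div]
  linarith

end Pool.Agent.Lib.MP_852f56_nt
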