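import Pool.Agent.Lib.MP_852f56_nt.Period

/-!
A moment sieve for congruence conditions whose moduli need not be coprime.
-/

open Finset

namespace Pool.Agent.Lib.MP_852f56_nt

/-- Ore: a graph without isolated vertices has a dominating set of at most half its size. -/
lemma exists_dominating {α : Type*} [Fintype α] [DecidableEq α] (r : α → α → Prop)
    (hsymm : ∀ a b, r a b → r b a) (hex : ∀ a, ∃ b, b ≠ a ∧ r a b) :
    ∃ R : Finset α, 2 * R.card ≤ Fintype.card α ∧ ∀ a, a ∉ R → ∃ b ∈ R, r a b := by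
  classical
  set S : Finset (Finset α) := univ.filter fun I => ∀ a ∈ I, ∀ b ∈ I, a ≠ b → ¬ r a b with hS
  obtain ⟨I, hI, hmax⟩ := S.exists_max_image card ⟨∅, by simp [hS]⟩
  have hI' : ∀ a ∈ I, ∀ b ∈ I, a ≠ b → ¬ r a b := (mem_filter.mp hI).2
  by_cases h : 2 * I.card ≤ Fintype.card α
  · refine ⟨I, h, fun a ha => ?_⟩
    by_contra hcon
    push Not at hcon
    have : insert a I ∈ S := by
      refine mem_filter.mpr ⟨mem_univ _, fun x hx y hy hxy => ?_⟩
      rcases mem_insert.mp hx with rfl | hx' <;> rcases mem_insert.mp hy with rfl | hy'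
      · exact absurd rfl hxy
      · exact hcon y hy'
      · exact fun h1 => hcon x hx' (hsymm _ _ h1)
      · exact hI' x hx' y hy' hxy
    have h2 := hmax _ this
    rw [card_insert_of_notMem ha] at h2
    omega
  · refine ⟨Iᶜ, ?_, fun a ha => ?_⟩
    · rw [card_compl]; omega
    · have ha' : a ∈ I := by simpa using ha
      obtain ⟨b, hb, hab⟩ := hex a
      refine ⟨b, mem_compl.mpr fun hbI => hI' a ha' b hbI hb.symm hab, hab⟩

section

variable {ι : Type*} [Fintype ι] [DecidableEq ι] (d c : ι → ℕ)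

/-- The majorant `1[d ∣ k + c] + 1 / d`. -/
noncomputable def psi (i : ι) (k : ℕ) : ℝ := ind (d i) (c i) k + 1 / (d i : ℝ)

/-- The centred indicator. -/
noncomputable def cen (i : ι) (k : ℕ) : ℝ := ind (d i) (c i) k - 1 / (d i : ℝ)

omit [Fintype ι] [DecidableEq ι] in
lemma psi_nonneg (i : ι) (k : ℕ) : 0 ≤ psi d c i k :=
  add_nonneg (ind_nonneg _ _ _) (by positivity)

omit [Fintype ι] [DecidableEq ι] in
lemma abs_cen_le_psi (i : ι) (k : ℕ) : |cen d c i k| ≤ psi d c i k := by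
  have h1 := ind_nonneg (d i) (c i) k
  have h2 : (0 : ℝ) ≤ 1 / (d i : ℝ) := by positivity
  unfold cen psi
  rw [abs_le]; constructor <;> linarith

omit [Fintype ι] [DecidableEq ι] in
lemma abs_cen_le_one (i : ι) (hd : 0 < d i) (k : ℕ) : |cen d c i k| ≤ 1 := by
  have h1 := ind_nonneg (d i) (c i) k
  have h3 := ind_le_one (d i) (c i) k
  have h2 : (0 : ℝ) ≤ 1 / (d i : ℝ) := by positivity
  have h4 : 1 / (d i : ℝ) ≤ 1 := by
    rw [div_le_one (by exact_mod_cast hd)]; exact_mod_cast hd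
  unfold cen
  rw [abs_le]; constructor <;> linarith

omit [Fintype ι] [DecidableEq ι] in
lemma psi_periodic (i : ι) {M : ℕ} (h : d i ∣ M) : Function.Periodic (psi d c i) M := by
  intro k; unfold psi; rw [ind_periodic _ h k]

omit [Fintype ι] [DecidableEq ι] in
lemma cen_periodic (i : ι) {M : ℕ} (h : d i ∣ M) : Function.Periodic (cen d c i) M := by
  intro k; unfold cen; rw [ind_periodic _ h k]

lemma periodic_prod {α : Type*} (s : Finset α) (g : α → ℕ → ℝ) {M : ℕ}
    (h : ∀ a ∈ s, Function.Periodic (g a) M) :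
    Function.Periodic (fun k => ∏ a ∈ s, g a k) M := by
  intro k
  exact prod_congr rfl fun a ha => h a ha k

lemma periodic_mul_right {f : ℕ → ℝ} {L : ℕ} (h : Function.Periodic f L) (e : ℕ) :
    Function.Periodic f (L * e) := by
  have := h.nat_mul e
  simpa [mul_comm] using this

omit [Fintype ι] [DecidableEq ι] in
lemma sum_mul_psi {M L : ℕ} (i : ι) (hd : 0 < d i) (hdM : d i ∣ M) {f : ℕ → ℝ}
    (hfM : Function.Periodic f M) (hfL : Function.Periodic f L) :
    ∑ k ∈ range M, f k * psi d c i k = ∑ k ∈ range M, f k *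
      ((Nat.gcd (d i) L : ℝ) / d i * ind (Nat.gcd (d i) L) (c i) k + 1 / (d i : ℝ)) := by
  unfold psi
  simp only [mul_add, sum_add_distrib]
  rw [sum_mul_ind (c i) hd hdM hfM hfL]

omit [Fintype ι] [DecidableEq ι] in
lemma pow_bound {M n : ℕ} (hdM : ∀ i, d i ∣ M) (P : ℕ → ℕ → Prop)
    (hP : ∀ j L i, P j L → P (j + 1) (L * d i)) (S : Finset ι) {W : ℝ} (hW : 0 ≤ W)
    (hstep : ∀ j L, j < n → P j L → ∀ f : ℕ → ℝ, (∀ k, 0 ≤ f k) → Function.Periodic f M →
      Function.Periodic f L →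
      ∑ i ∈ S, ∑ k ∈ range M, f k * psi d c i k ≤ W * ∑ k ∈ range M, f k) :
    ∀ l j L, j + l ≤ n → P j L → ∀ f : ℕ → ℝ, (∀ k, 0 ≤ f k) → Function.Periodic f M →
      Function.Periodic f L →
      ∑ k ∈ range M, f k * (∑ i ∈ S, psi d c i k) ^ l ≤ W ^ l * ∑ k ∈ range M, f k := by
  intro l
  induction l with
  | zero => intro j L _ _ f _ _ _; simp
  | succ l ih =>
    intro j L hj hL f hf0 hfM hfL
    calc ∑ k ∈ range M, f k * (∑ i ∈ S, psi d c i k) ^ (l + 1)
        = ∑ k ∈ range M, ∑ i ∈ S, (f k * psi d c i k) * (∑ i ∈ S, psi d c i k) ^ l := by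
          refine sum_congr rfl fun k _ => ?_
          rw [← sum_mul, ← mul_sum]; ring
      _ = ∑ i ∈ S, ∑ k ∈ range M, (f k * psi d c i k) * (∑ i ∈ S, psi d c i k) ^ l := sum_comm
      _ ≤ ∑ i ∈ S, W ^ l * ∑ k ∈ range M, f k * psi d c i k := by
          refine sum_le_sum fun i _ => ?_
          refine ih (j + 1) (L * d i) (by omega) (hP j L i hL) (fun k => f k * psi d c i k)
            (fun k => mul_nonneg (hf0 k) (psi_nonneg d c i k))
            (hfM.mul (psi_periodic d c i (hdM i)))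
            ((periodic_mul_right hfL _).mul (psi_periodic d c i (dvd_mul_left _ _)))
      _ = W ^ l * ∑ i ∈ S, ∑ k ∈ range M, f k * psi d c i k := by rw [mul_sum]
      _ ≤ W ^ l * (W * ∑ k ∈ range M, f k) := by
          gcongr
          exact hstep j L (by omega) hL f hf0 hfM hfL
      _ = _ := by ring

/-- The hypothesis on the dependent part. -/
def DepBound (P : ℕ → ℕ → Prop) (n : ℕ) (V : ℝ) : Prop :=
  ∀ j L, j < n → P j L → ∀ k, ∑ i ∈ univ.filter (fun i => ¬ Nat.Coprime (d i) L),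
    ((Nat.gcd (d i) L : ℝ) / d i * ind (Nat.gcd (d i) L) (c i) k + 1 / (d i : ℝ)) ≤ V

omit [DecidableEq ι] in
lemma step_dep {M n : ℕ} (hd : ∀ i, 0 < d i) (hdM : ∀ i, d i ∣ M) {P : ℕ → ℕ → Prop} {V : ℝ}
    (hV : DepBound d c P n V) {j L : ℕ} (hj : j < n) (hL : P j L) (S : Finset ι)
    (hS : ∀ i ∈ S, ¬ Nat.Coprime (d i) L) {f : ℕ → ℝ} (hf0 : ∀ k, 0 ≤ f k)
    (hfM : Function.Periodic f M) (hfL : Function.Periodic f L) :
    ∑ i ∈ S, ∑ k ∈ range M, f k * psi d c i k ≤ V * ∑ k ∈ range M, f k := by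
  rw [sum_congr rfl fun i _ => sum_mul_psi d c i (hd i) (hdM i) hfM hfL, sum_comm, mul_sum]
  refine sum_le_sum fun k _ => ?_
  rw [← mul_sum, mul_comm V]
  refine mul_le_mul_of_nonneg_left (le_trans ?_ (hV j L hj hL k)) (hf0 k)
  refine sum_le_sum_of_subset_of_nonneg (fun i hi => mem_filter.mpr ⟨mem_univ _, hS i hi⟩)
    fun i _ _ => ?_
  have := ind_nonneg (Nat.gcd (d i) L) (c i) k
  positivity

omit [DecidableEq ι] in
lemma step_all {M n : ℕ} (hd : ∀ i, 0 < d i) (hdM : ∀ i, d i ∣ M) {P : ℕ → ℕ → Prop} {V : ℝ}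
    (hV : DepBound d c P n V) {j L : ℕ} (hj : j < n) (hL : P j L) {f : ℕ → ℝ}
    (hf0 : ∀ k, 0 ≤ f k) (hfM : Function.Periodic f M) (hfL : Function.Periodic f L) :
    ∑ i, ∑ k ∈ range M, f k * psi d c i k ≤
      (2 * (∑ i, 1 / (d i : ℝ)) + V) * ∑ k ∈ range M, f k := by
  classical
  rw [← sum_filter_add_sum_filter_not univ (fun i => Nat.Coprime (d i) L), add_mul]
  refine add_le_add ?_ (step_dep d c hd hdM hV hj hL _ (fun i hi => (mem_filter.mp hi).2)
    hf0 hfM hfL)
  have hs : 0 ≤ ∑ k ∈ range M, f k := sum_nonneg fun k _ => hf0 k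
  calc _ = ∑ i ∈ univ.filter (fun i => Nat.Coprime (d i) L),
        2 * (1 / (d i : ℝ)) * ∑ k ∈ range M, f k := by
        refine sum_congr rfl fun i hi => ?_
        have h1 : Nat.gcd (d i) L = 1 := (mem_filter.mp hi).2
        rw [sum_mul_psi d c i (hd i) (hdM i) hfM hfL, h1, mul_sum]
        refine sum_congr rfl fun k _ => ?_
        rw [ind_one]; push_cast; ring
    _ ≤ ∑ i, 2 * (1 / (d i : ℝ)) * ∑ k ∈ range M, f k :=
        sum_le_sum_of_subset_of_nonneg (filter_subset _ _) fun i _ _ => by positivity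
    _ = _ := by rw [← sum_mul, ← mul_sum]

omit [Fintype ι] [DecidableEq ι] in
lemma sum_prod_cen_eq_zero {M n : ℕ} (hd : ∀ i, 0 < d i) (hdM : ∀ i, d i ∣ M) (τ : Fin n → ι)
    (t : Fin n) (ht : ∀ s, s ≠ t → Nat.Coprime (d (τ t)) (d (τ s))) :
    ∑ k ∈ range M, ∏ s, cen d c (τ s) k = 0 := by
  set f : ℕ → ℝ := fun k => ∏ s ∈ univ.erase t, cen d c (τ s) k with hf
  set L := ∏ s ∈ univ.erase t, d (τ s) with hL
  have hfM : Function.Periodic f M :=
    periodic_prod _ _ fun s _ => cen_periodic d c _ (hdM _)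
  have hfL : Function.Periodic f L :=
    periodic_prod _ _ fun s hs => cen_periodic d c _ (dvd_prod_of_mem (fun s => d (τ s)) hs)
  have hcop : Nat.gcd (d (τ t)) L = 1 :=
    Nat.Coprime.prod_right fun s hs => ht s (ne_of_mem_erase hs)
  have h1 := sum_mul_ind (c (τ t)) (hd (τ t)) (hdM (τ t)) hfM hfL
  rw [hcop] at h1
  calc _ = ∑ k ∈ range M, (f k * ind (d (τ t)) (c (τ t)) k - f k * (1 / (d (τ t) : ℝ))) := by
        refine sum_congr rfl fun k _ => ?_
        rw [← mul_prod_erase univ _ (mem_univ t)]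
        simp only [hf]
        rw [cen]; ring
    _ = 0 := by
        rw [sum_sub_distrib, h1, sub_eq_zero]
        refine sum_congr rfl fun k _ => ?_
        rw [ind_one]; push_cast; ring

omit [Fintype ι] [DecidableEq ι] in
lemma prop_prod {α : Type*} [DecidableEq α] (P : ℕ → ℕ → Prop) (h0 : P 0 1)
    (hP : ∀ j L i, P j L → P (j + 1) (L * d i)) (τ : α → ι) (s : Finset α) :
    P s.card (∏ a ∈ s, d (τ a)) := by
  induction s using Finset.induction_on with
  | empty => simpa using h0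
  | insert a s ha ih =>
    rw [card_insert_of_notMem ha, prod_insert ha, mul_comm]
    exact hP _ _ _ ih

lemma sum_dominated {M n : ℕ} (hd : ∀ i, 0 < d i) (hdM : ∀ i, d i ∣ M) {P : ℕ → ℕ → Prop}
    (h0 : P 0 1) (hP : ∀ j L i, P j L → P (j + 1) (L * d i)) {V : ℝ} (hV0 : 0 ≤ V)
    (hV : DepBound d c P n V) (R : Finset (Fin n)) :
    ∑ τ : Fin n → ι, (if ∀ t, t ∉ R → ¬ Nat.Coprime (d (τ t)) (∏ s ∈ R, d (τ s)) then
      ∑ k ∈ range M, ∏ t, psi d c (τ t) k else 0) ≤
      (2 * (∑ i, 1 / (d i : ℝ)) + V) ^ R.card * V ^ (n - R.card) * M := by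
  classical
  set U := 2 * (∑ i, 1 / (d i : ℝ)) + V with hU
  have hU0 : 0 ≤ U := by positivity
  have hRn : R.card ≤ n := by simpa using card_le_univ R
  set e := Equiv.piEquivPiSubtypeProd (fun t : Fin n => t ∈ R) (fun _ => ι) with he
  rw [← e.symm.sum_comp, Fintype.sum_prod_type]
  have hcard1 : Fintype.card {t : Fin n // t ∈ R} = R.card := by simp
  have hcard2 : Fintype.card {t : Fin n // t ∉ R} = n - R.card := by
    rw [Fintype.card_subtype_compl, hcard1, Fintype.card_fin]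
  have inner : ∀ τ1 : {t : Fin n // t ∈ R} → ι,
      ∑ τ2 : {t : Fin n // t ∉ R} → ι,
        (if ∀ t, t ∉ R → ¬ Nat.Coprime (d (e.symm (τ1, τ2) t)) (∏ s ∈ R, d (e.symm (τ1, τ2) s))
          then ∑ k ∈ range M, ∏ t, psi d c (e.symm (τ1, τ2) t) k else 0) ≤
        V ^ (n - R.card) * ∑ k ∈ range M, ∏ t, psi d c (τ1 t) k := by
    intro τ1
    set D := ∏ t, d (τ1 t) with hD
    set S := univ.filter (fun i => ¬ Nat.Coprime (d i) D) with hS
    have hPD : P R.card D := by
      have := prop_prod d P h0 hP τ1 univ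
      rwa [card_univ, hcard1] at this
    have h1 : ∀ τ2 : {t : Fin n // t ∉ R} → ι,
        (if ∀ t, t ∉ R → ¬ Nat.Coprime (d (e.symm (τ1, τ2) t)) (∏ s ∈ R, d (e.symm (τ1, τ2) s))
          then ∑ k ∈ range M, ∏ t, psi d c (e.symm (τ1, τ2) t) k else 0) =
        ∑ k ∈ range M, (∏ t, psi d c (τ1 t) k) *
          ∏ t, (if τ2 t ∈ S then psi d c (τ2 t) k else 0) := by
      intro τ2
      have hin : ∀ t : {t : Fin n // t ∈ R}, e.symm (τ1, τ2) t = τ1 t := by
        intro t; simp [he, t.2]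
      have hout : ∀ t : {t : Fin n // t ∉ R}, e.symm (τ1, τ2) t = τ2 t := by
        intro t; simp [he, t.2]
      have hprod : ∏ s ∈ R, d (e.symm (τ1, τ2) s) = D := by
        rw [hD, ← prod_coe_sort R]
        exact prod_congr rfl fun t _ => by rw [hin]
      rw [hprod]
      split_ifs with h
      · refine sum_congr rfl fun k _ => ?_
        rw [← Fintype.prod_subtype_mul_prod_subtype (fun t : Fin n => t ∈ R)]
        congr 1
        · exact prod_congr (by ext; simp) fun t _ => by rw [hin]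
        · refine prod_congr rfl fun t _ => ?_
          rw [hout, if_pos]
          have := h t t.2
          rw [hout] at this
          exact mem_filter.mpr ⟨mem_univ _, this⟩
      · push Not at h
        obtain ⟨t, ht, hcop⟩ := h
        symm
        refine sum_eq_zero fun k _ => mul_eq_zero_of_right _ ?_
        refine prod_eq_zero (mem_univ ⟨t, ht⟩) (if_neg fun h1 => ?_)
        have h2 := hout ⟨t, ht⟩
        simp only at h2
        rw [h2] at hcop
        exact (mem_filter.mp h1).2 hcop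
    rw [sum_congr rfl fun τ2 _ => h1 τ2, sum_comm]
    have h2 : ∀ k, ∑ τ2 : {t : Fin n // t ∉ R} → ι, (∏ t, psi d c (τ1 t) k) *
        ∏ t, (if τ2 t ∈ S then psi d c (τ2 t) k else 0) =
        (∏ t, psi d c (τ1 t) k) * (∑ i ∈ S, psi d c i k) ^ (n - R.card) := by
      intro k
      rw [← mul_sum, ← Fintype.prod_sum (fun (_ : {t : Fin n // t ∉ R}) (i : ι) =>
        if i ∈ S then psi d c i k else 0), prod_const, card_univ, hcard2, ← sum_filter]
      simp
    rw [sum_congr rfl fun k _ => h2 k]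
    refine pow_bound d c (n := n) hdM (fun j L => P j L ∧ D ∣ L)
      (fun j L i h => ⟨hP j L i h.1, h.2.mul_right _⟩) S hV0 ?_ (n - R.card) R.card D (by omega)
      ⟨hPD, dvd_rfl⟩ _ (fun k => prod_nonneg fun t _ => psi_nonneg d c _ k)
      (periodic_prod _ _ fun t _ => psi_periodic d c _ (hdM _))
      (periodic_prod _ _ fun t ht => psi_periodic d c _ (dvd_prod_of_mem (fun t => d (τ1 t)) ht))
    intro j L hj hL f hf0 hfM hfL
    refine step_dep d c hd hdM hV hj hL.1 S (fun i hi hcop => ?_) hf0 hfM hfL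
    exact (mem_filter.mp hi).2 (Nat.Coprime.coprime_dvd_right hL.2 hcop)
  refine (sum_le_sum fun τ1 _ => inner τ1).trans ?_
  rw [← mul_sum, sum_comm]
  have h3 : ∀ k, ∑ τ1 : {t : Fin n // t ∈ R} → ι, ∏ t, psi d c (τ1 t) k =
      1 * (∑ i, psi d c i k) ^ R.card := by
    intro k
    rw [← Fintype.prod_sum (fun (_ : {t : Fin n // t ∈ R}) (i : ι) => psi d c i k), prod_const,
      card_univ, hcard1, one_mul]
  rw [sum_congr rfl fun k _ => h3 k]
  have h4 := pow_bound d c (n := n) hdM P hP univ hU0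
    (fun j L hj hL f hf0 hfM hfL => step_all d c hd hdM hV hj hL hf0 hfM hfL) R.card 0 1
    (by omega) h0 (fun _ => 1) (fun _ => zero_le_one) (fun _ => rfl) (fun _ => rfl)
  simp only [sum_const, card_range, nsmul_eq_mul, mul_one] at h4
  calc _ ≤ V ^ (n - R.card) * (U ^ R.card * M) := by gcongr
    _ = _ := by ring

lemma moment_le {M m : ℕ} (hd : ∀ i, 0 < d i) (hdM : ∀ i, d i ∣ M) {P : ℕ → ℕ → Prop}
    (h0 : P 0 1) (hP : ∀ j L i, P j L → P (j + 1) (L * d i)) {V : ℝ} (hV0 : 0 ≤ V)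
    (hV : DepBound d c P (2 * m) V) :
    ∑ τ : Fin (2 * m) → ι, ∑ k ∈ range M, ∏ t, cen d c (τ t) k ≤
      (4 * (2 * (∑ i, 1 / (d i : ℝ)) + V) * V) ^ m * M := by
  classical
  set U := 2 * (∑ i, 1 / (d i : ℝ)) + V with hU
  have hVU : V ≤ U := by
    have : 0 ≤ ∑ i, 1 / (d i : ℝ) := by positivity
    linarith
  set T : Finset (Finset (Fin (2 * m))) := univ.filter fun R => R.card ≤ m with hT
  have h1 : ∀ τ : Fin (2 * m) → ι, ∑ k ∈ range M, ∏ t, cen d c (τ t) k ≤
      ∑ R ∈ T, (if ∀ t, t ∉ R → ¬ Nat.Coprime (d (τ t)) (∏ s ∈ R, d (τ s)) then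
        ∑ k ∈ range M, ∏ t, psi d c (τ t) k else 0) := by
    intro τ
    have hnn : 0 ≤ ∑ k ∈ range M, ∏ t, psi d c (τ t) k :=
      sum_nonneg fun k _ => prod_nonneg fun t _ => psi_nonneg d c _ k
    have hnn' : ∀ R ∈ T, 0 ≤ (if ∀ t, t ∉ R → ¬ Nat.Coprime (d (τ t)) (∏ s ∈ R, d (τ s)) then
        ∑ k ∈ range M, ∏ t, psi d c (τ t) k else 0) := by
      intro R _; split_ifs
      · exact hnn
      · exact le_rfl
    by_cases hiso : ∃ t, ∀ s, s ≠ t → Nat.Coprime (d (τ t)) (d (τ s))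
    · obtain ⟨t, ht⟩ := hiso
      rw [sum_prod_cen_eq_zero d c hd hdM τ t ht]
      exact sum_nonneg hnn'
    · push Not at hiso
      obtain ⟨R, hR, hdom⟩ := exists_dominating
        (fun t s : Fin (2 * m) => ¬ Nat.Coprime (d (τ t)) (d (τ s)))
        (fun a b h h' => h h'.symm) hiso
      have hRT : R ∈ T := by
        rw [Fintype.card_fin] at hR
        exact mem_filter.mpr ⟨mem_univ _, by omega⟩
      refine le_trans ?_ (single_le_sum hnn' hRT)
      rw [if_pos]
      · refine sum_le_sum fun k _ => (le_abs_self _).trans ?_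
        rw [abs_prod]
        exact prod_le_prod (fun t _ => abs_nonneg _) fun t _ => abs_cen_le_psi d c _ k
      · intro t ht hcop
        obtain ⟨s, hs, h⟩ := hdom t ht
        exact h (Nat.Coprime.coprime_dvd_right (dvd_prod_of_mem (fun s => d (τ s)) hs) hcop)
  refine (sum_le_sum fun τ _ => h1 τ).trans ?_
  rw [sum_comm]
  have h2 : ∀ R ∈ T, ∑ τ : Fin (2 * m) → ι,
      (if ∀ t, t ∉ R → ¬ Nat.Coprime (d (τ t)) (∏ s ∈ R, d (τ s)) then
        ∑ k ∈ range M, ∏ t, psi d c (τ t) k else 0) ≤ (U * V) ^ m * M := by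
    intro R hR
    refine (sum_dominated d c hd hdM h0 hP hV0 hV R).trans ?_
    have hR' : R.card ≤ m := (mem_filter.mp hR).2
    obtain ⟨a, ha⟩ := Nat.exists_eq_add_of_le hR'
    have e1 : 2 * m - R.card = a + m := by omega
    rw [← hU, e1, mul_pow, pow_add, ← mul_assoc]
    have : U ^ R.card * V ^ a ≤ U ^ m := by
      have hU0 : 0 ≤ U := hV0.trans hVU
      have e2 : U ^ m = U ^ R.card * U ^ a := by rw [← pow_add, ← ha]
      rw [e2]
      gcongr
    gcongr
  refine (sum_le_sum h2).trans ?_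
  rw [sum_const, nsmul_eq_mul, mul_assoc 4, mul_pow 4, mul_assoc]
  have hc : (T.card : ℝ) ≤ 4 ^ m := by
    have : T.card ≤ 2 ^ (2 * m) := by
      simpa using card_le_univ T
    rw [pow_mul] at this
    exact_mod_cast this
  have hU0 : 0 ≤ U := hV0.trans hVU
  gcongr

/-- The moment sieve. -/
theorem moment_sieve {m y : ℕ} (N : ℕ) (hd : ∀ i, 0 < d i) (hy : ∀ i, d i ≤ y)
    {P : ℕ → ℕ → Prop} (h0 : P 0 1) (hP : ∀ j L i, P j L → P (j + 1) (L * d i)) {V : ℝ}
    (hV0 : 0 ≤ V) (hV : DepBound d c P (2 * m) V) :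
    (((range N).filter fun k => ∀ i, ¬ d i ∣ k + c i).card : ℝ) * (∑ i, 1 / (d i : ℝ)) ^ (2 * m) ≤
      N * (4 * (2 * (∑ i, 1 / (d i : ℝ)) + V) * V) ^ m +
        2 * ((Fintype.card ι : ℝ) * y) ^ (2 * m) := by
  classical
  set μ := ∑ i, 1 / (d i : ℝ) with hμ
  set M := ∏ i, d i with hM
  have hM0 : 0 < M := prod_pos fun i _ => hd i
  have hM' : (0 : ℝ) < M := by exact_mod_cast hM0
  have hdM : ∀ i, d i ∣ M := fun i => dvd_prod_of_mem d (mem_univ i)
  have h1 : (((range N).filter fun k => ∀ i, ¬ d i ∣ k + c i).card : ℝ) * μ ^ (2 * m) ≤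
      ∑ k ∈ range N, (∑ i, cen d c i k) ^ (2 * m) := by
    calc _ = ∑ k ∈ (range N).filter fun k => ∀ i, ¬ d i ∣ k + c i,
          (∑ i, cen d c i k) ^ (2 * m) := by
          rw [← nsmul_eq_mul, ← sum_const]
          refine sum_congr rfl fun k hk => ?_
          have : ∑ i, cen d c i k = -μ := by
            rw [hμ, ← sum_neg_distrib]
            refine sum_congr rfl fun i _ => ?_
            unfold cen ind
            rw [if_neg ((mem_filter.mp hk).2 i)]; ring
          rw [this, pow_mul, pow_mul, neg_sq]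
      _ ≤ _ := sum_le_sum_of_subset_of_nonneg (filter_subset _ _) fun k _ _ => by
          rw [pow_mul]; positivity
  refine h1.trans ?_
  rw [sum_congr rfl fun k _ => Fintype.sum_pow (fun i => cen d c i k) (2 * m), sum_comm]
  have h2 : ∀ τ : Fin (2 * m) → ι, ∑ k ∈ range N, ∏ t, cen d c (τ t) k ≤
      N * ((∑ k ∈ range M, ∏ t, cen d c (τ t) k) / M) + 2 * (y : ℝ) ^ (2 * m) := by
    intro τ
    have hD0 : 0 < ∏ t, d (τ t) := prod_pos fun t _ => hd _
    have := sum_le_mean N hM0 hD0 (f := fun k => ∏ t, cen d c (τ t) k)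
      (periodic_prod _ _ fun t _ => cen_periodic d c _ (hdM _))
      (periodic_prod _ _ fun t ht => cen_periodic d c _ (dvd_prod_of_mem (fun t => d (τ t)) ht))
      (fun k => by
        rw [abs_prod]
        exact prod_le_one (fun t _ => abs_nonneg _) fun t _ => abs_cen_le_one d c _ (hd _) k)
    refine this.trans ?_
    have h3 : ∏ t, d (τ t) ≤ y ^ (2 * m) := by
      have := prod_le_pow_card univ (fun t => d (τ t)) y fun t _ => hy _
      simpa using this
    have h4 : ((∏ t, d (τ t) : ℕ) : ℝ) ≤ (y : ℝ) ^ (2 * m) := by exact_mod_cast h3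
    linarith
  refine (sum_le_sum fun τ _ => h2 τ).trans ?_
  rw [sum_add_distrib, ← mul_sum, ← sum_div, sum_const, card_univ, Fintype.card_fun,
    Fintype.card_fin, nsmul_eq_mul]
  have h5 := moment_le d c hd hdM h0 hP hV0 hV
  rw [← div_le_iff₀ hM', ← hμ] at h5
  refine add_le_add (by gcongr) (le_of_eq ?_)
  push_cast; ring

end

end Pool.Agent.Lib.MP_852f56_nt
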