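import Pool.Agent.Lib.MP_852f56_nt.Top

/-!
Choice of the parameters.
-/

open Finset Real
open scoped ArithmeticFunction.Omega

namespace Pool.Agent.Lib.MP_852f56_nt

lemma Fam.mono {B : Finset (ℕ × ℕ)} {i t P Q Q' : ℕ} (h : Fam B i t P Q) (hQ : Q ≤ Q') :
    Fam B i t P Q' :=
  ⟨h.rl, fun x hx => (h.le x hx).trans hQ, h.om, h.sm, h.mult⟩

lemma log_two_pow (a : ℕ) : log ((2 ^ a : ℕ) : ℝ) = a * log 2 := by
  push_cast; rw [log_pow]

lemma loglog_le {a b : ℕ} (ha : 1 ≤ a) (h : a ≤ 2 ^ b) :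
    log (log ((2 ^ a : ℕ) : ℝ)) ≤ 0.7 * b := by
  have h1 := log_two_gt_d9
  have h2 := log_two_lt_d9
  have ha' : (1 : ℝ) ≤ a := by exact_mod_cast ha
  have h3 : (a : ℝ) ≤ (2 ^ b : ℕ) := by exact_mod_cast h
  rw [log_two_pow]
  calc log (a * log 2) ≤ log ((2 ^ b : ℕ) : ℝ) := log_le_log (by positivity) (by nlinarith)
    _ = b * log 2 := log_two_pow b
    _ ≤ _ := by nlinarith [(Nat.cast_nonneg b : (0 : ℝ) ≤ b)]

lemma two_pow_div {a e b : ℕ} (h : a + e ≤ b) : (2 : ℝ) ^ a / 2 ^ b ≤ 1 / 2 ^ e := by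
  rw [div_le_div_iff₀ (by positivity) (by positivity), one_mul, ← pow_add]
  exact pow_le_pow_right₀ (by norm_num) h

lemma grow {l r i Q : ℕ} (hl : 6 ≤ l) (hr : r ≤ 2 ^ l) (hi : i < r)
    (ht : 4 * ∑ p ∈ Nat.primesLE (2 ^ (320 * r)), (1 : ℝ) / p ≤ (8 * l - 1 : ℕ))
    {B : Finset (ℕ × ℕ)} (h : Fam B i (8 * l - 1) (2 ^ (9 * l ^ 2 * (r + i))) Q) :
    4 * wt B ≤ wt (nxt B (2 ^ (320 * r)) (8 * l - 1) (2 ^ (9 * l ^ 2 * (r + i)))
      (2 ^ (9 * l ^ 2 * (r + (i + 1))))) := by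
  have hl2 : 36 ≤ l ^ 2 := by nlinarith
  have hr1 : (1 : ℝ) ≤ r := by exact_mod_cast (show 1 ≤ r by omega)
  have hA : 2 ^ (320 * r) ≤ 2 ^ (9 * l ^ 2 * (r + i)) :=
    Nat.pow_le_pow_right (by omega) (by nlinarith [Nat.zero_le (l ^ 2 * i)])
  refine le_trans ?_ (h.wt_next hA (by positivity))
  have hW : 0 ≤ wt B := sum_nonneg fun _ _ => by positivity
  have h1 := few_weight (A := 2 ^ (320 * r)) (t := 8 * l - 1) (by omega) ht
  have h2 := prs_blocks (x := 2 ^ (9 * l ^ 2 * (r + i))) (le_trans (by norm_num)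
    (Nat.pow_le_pow_right (by omega) (show 24 ≤ 9 * l ^ 2 * (r + i) by nlinarith))) (3 * l ^ 2)
  have e1 : 8 ^ (3 * l ^ 2) * 2 ^ (9 * l ^ 2 * (r + i)) = 2 ^ (9 * l ^ 2 * (r + (i + 1))) := by
    rw [show 8 = 2 ^ 3 by norm_num, ← pow_mul, ← pow_add]; congr 1; ring
  rw [e1, log_two_pow] at h2
  rw [log_two_pow] at h1
  have hlog1 := log_two_gt_d9
  have hlog2 := log_two_lt_d9
  have hl' : (36 : ℝ) ≤ (l : ℝ) ^ 2 := by exact_mod_cast hl2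
  have h3 : 1 / (13 * (r : ℝ)) ≤
      ((3 * l ^ 2 : ℕ) : ℝ) / (3 * ((9 * l ^ 2 * (r + (i + 1)) : ℕ) * log 2)) := by
    have h4 : ((r + (i + 1) : ℕ) : ℝ) ≤ 2 * r := by exact_mod_cast (show r + (i + 1) ≤ 2 * r by omega)
    have h5 : (0 : ℝ) < ((r + (i + 1) : ℕ) : ℝ) := by positivity
    rw [Nat.cast_mul (9 * l ^ 2), div_le_div_iff₀ (by positivity) (by positivity)]
    have h6 : ((r + (i + 1) : ℕ) : ℝ) * log 2 ≤ 2 * r * 0.7 := by gcongr; linarith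
    generalize ((r + (i + 1) : ℕ) : ℝ) = v at *
    push_cast
    nlinarith
  have h4 : ((i + 1 : ℕ) : ℝ) ^ ((8 * l - 1 + 1) * (i + 1)) / (2 ^ (9 * l ^ 2 * (r + i)) : ℕ) ≤
      1 / (26 * (r : ℝ)) := by
    have h5 : (i + 1) ^ ((8 * l - 1 + 1) * (i + 1)) ≤ 2 ^ (8 * l ^ 2 * r) := by
      calc (i + 1) ^ ((8 * l - 1 + 1) * (i + 1)) ≤ (2 ^ l) ^ ((8 * l - 1 + 1) * (i + 1)) :=
            Nat.pow_le_pow_left (by omega) _
        _ ≤ _ := by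
          rw [← pow_mul, show 8 * l - 1 + 1 = 8 * l by omega]
          refine Nat.pow_le_pow_right (by omega) ?_
          have : l * (8 * l * (i + 1)) ≤ l * (8 * l * r) := by gcongr; omega
          nlinarith
    have h6 : ((i + 1 : ℕ) : ℝ) ^ ((8 * l - 1 + 1) * (i + 1)) ≤ 2 ^ (8 * l ^ 2 * r) := by
      exact_mod_cast h5
    have h7 := two_pow_div (a := 8 * l ^ 2 * r) (e := r + 5) (b := 9 * l ^ 2 * (r + i))
      (by nlinarith [Nat.zero_le (l ^ 2 * i)])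
    have h8 : 26 * (r : ℝ) ≤ 2 ^ (r + 5) := by
      have : (r : ℝ) ≤ 2 ^ r := by exact_mod_cast Nat.lt_two_pow_self.le
      rw [pow_add]; linarith
    calc _ ≤ (2 : ℝ) ^ (8 * l ^ 2 * r) / 2 ^ (9 * l ^ 2 * (r + i)) := by push_cast at *; gcongr
      _ ≤ 1 / 2 ^ (r + 5) := h7
      _ ≤ _ := by gcongr
  have h5 : 1 / (26 * (r : ℝ)) ≤ ∑ p ∈ prs (2 ^ (9 * l ^ 2 * (r + i)))
      (2 ^ (9 * l ^ 2 * (r + (i + 1)))), (1 : ℝ) / p -
      ((i + 1 : ℕ) : ℝ) ^ ((8 * l - 1 + 1) * (i + 1)) / (2 ^ (9 * l ^ 2 * (r + i)) : ℕ) := by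
    have : 1 / (13 * (r : ℝ)) = 1 / (26 * (r : ℝ)) + 1 / (26 * (r : ℝ)) := by field_simp; norm_num
    linarith
  have h6 : 104 * (r : ℝ) ≤ ∑ a ∈ few (2 ^ (320 * r)) (8 * l - 1), (1 : ℝ) / a := by
    refine le_trans ?_ h1
    push_cast; nlinarith
  calc 4 * wt B = wt B * (104 * r) * (1 / (26 * (r : ℝ))) := by field_simp; ring
    _ ≤ _ := by gcongr

theorem fam_exists : ∃ l0 : ℕ, ∀ l r : ℕ, l0 ≤ l → 1 ≤ r → r ≤ 2 ^ l → ∃ B : Finset (ℕ × ℕ),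
    (∀ x ∈ B, Rl x.1 x.2 ∧ 2 ≤ x.1 ∧ x.1 ≤ 2 ^ (27 * (l ^ 2 * r ^ 2))) ∧ 4 ^ r ≤ wt B ∧
    ∀ p : ℕ, p.Prime → 2 ^ (27 * l ^ 2 * r) < p → ∀ κ : ℤ,
      ∑ x ∈ B.filter (fun x => (p : ℤ) ∣ x.1 * (κ + x.2) + 1), (1 : ℝ) / x.1 ≤
        2 / 2 ^ (9 * l ^ 2 * r) * wt B := by
  obtain ⟨C, hC⟩ := MP_778b46_nt.sum_inv_le
  refine ⟨⌈C⌉₊ + 30, fun l r hl hr1 hr => ?_⟩
  have hl2 : 36 ≤ l ^ 2 := by nlinarith
  have ht : 4 * ∑ p ∈ Nat.primesLE (2 ^ (320 * r)), (1 : ℝ) / p ≤ (8 * l - 1 : ℕ) := by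
    have h1 := hC (2 ^ (320 * r)) (Nat.le_self_pow (by omega) 2)
    have h2 := loglog_le (a := 320 * r) (b := l + 9) (by omega) (by rw [pow_add]; omega)
    have h3 := Nat.le_ceil C
    have h4 : ((⌈C⌉₊ + 30 : ℕ) : ℝ) ≤ l := by exact_mod_cast hl
    have h5 : (0 : ℝ) ≤ ⌈C⌉₊ := Nat.cast_nonneg _
    rw [Nat.cast_sub (by omega)]
    push_cast at *
    linarith
  have hA : ∀ i, 2 ^ (320 * r) ≤ 2 ^ (9 * l ^ 2 * (r + i)) := fun i =>
    Nat.pow_le_pow_right (by omega) (by nlinarith [Nat.zero_le (l ^ 2 * i)])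
  have hPP : ∀ i, 2 ^ (9 * l ^ 2 * (r + i)) ≤ 2 ^ (9 * l ^ 2 * (r + (i + 1))) := fun i =>
    Nat.pow_le_pow_right (by omega) (by gcongr; omega)
  have hb : ∀ i, i < r → 2 ^ (320 * r) * 2 ^ (9 * l ^ 2 * (r + (i + 1))) ≤ 2 ^ (27 * l ^ 2 * r) := by
    intro i hi
    rw [← pow_add]
    refine Nat.pow_le_pow_right (by omega) ?_
    have : 9 * l ^ 2 * (r + (i + 1)) ≤ 9 * l ^ 2 * (r + r) := by gcongr; omega
    nlinarith
  have hstep : ∀ i, i < r → ∀ B, Fam B i (8 * l - 1) (2 ^ (9 * l ^ 2 * (r + i)))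
      ((2 ^ (27 * l ^ 2 * r)) ^ i) → Fam (nxt B (2 ^ (320 * r)) (8 * l - 1)
      (2 ^ (9 * l ^ 2 * (r + i))) (2 ^ (9 * l ^ 2 * (r + (i + 1))))) (i + 1) (8 * l - 1)
      (2 ^ (9 * l ^ 2 * (r + (i + 1)))) ((2 ^ (27 * l ^ 2 * r)) ^ (i + 1)) := by
    intro i hi B h
    refine (h.next (hA i) (hPP i)).mono ?_
    rw [pow_succ (2 ^ (27 * l ^ 2 * r)) i]
    exact Nat.mul_le_mul_left _ (hb i hi)
  have key : ∀ i, i ≤ r → ∃ B, Fam B i (8 * l - 1) (2 ^ (9 * l ^ 2 * (r + i)))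
      ((2 ^ (27 * l ^ 2 * r)) ^ i) ∧ 4 ^ i ≤ wt B := by
    intro i
    induction i with
    | zero => exact fun _ => ⟨_, fam_zero _ _, by simp [wt]⟩
    | succ i ih =>
      intro hi
      obtain ⟨B, h1, h2⟩ := ih (by omega)
      refine ⟨_, hstep i hi B h1, le_trans ?_ (grow (by omega) hr hi ht h1)⟩
      rw [pow_succ]; linarith
  obtain ⟨i, rfl⟩ : ∃ i, r = i + 1 := ⟨r - 1, by omega⟩
  obtain ⟨B, h1, h2⟩ := key i (by omega)
  have h3 := hstep i (by omega) B h1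
  have h4 := grow (by omega) hr (by omega) ht h1
  have hW : 0 ≤ wt B := sum_nonneg fun _ _ => by positivity
  refine ⟨_, fun x hx => ⟨h3.rl x hx, two_le_nxt h1 ((hA i).trans (hPP i)) hx,
    (h3.le x hx).trans (le_of_eq ?_)⟩, le_trans ?_ h4, fun p hp hp2 κ => ?_⟩
  · rw [← pow_mul]; congr 1; ring
  · rw [pow_succ]; linarith
  · refine (anti_conc B ((hA i).trans (hPP i)) (by positivity) hp
      (lt_of_le_of_lt (hb i (by omega)) hp2) κ).trans ?_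
    push_cast
    refine mul_le_mul (div_le_div_of_nonneg_left (by norm_num) (by positivity)
      (pow_le_pow_right₀ (by norm_num) (Nat.mul_le_mul_left _ (by omega)))) (by linarith) hW
      (by positivity)

lemma rough_exists : ∃ l0 : ℕ, ∀ l r X z : ℕ, l0 ≤ l → l ≤ r → r ≤ 2 ^ l →
    X = 2 ^ (54 * (l ^ 2 * r ^ 2)) → z = 2 ^ (l * r ^ 2) → ∀ q : ℕ, 1 ≤ q →
    1 / (2 : ℝ) ^ (9 * l + 1) * X ≤ (((range X).filter fun j =>
      ∀ p ∈ Nat.primesLE z, ¬ p ∣ (q * (X + 1) - 1) + j * q).card : ℝ) := by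
  obtain ⟨C, hC⟩ := MP_778b46_nt.sum_inv_le
  refine ⟨2 * ⌈C⌉₊ + 1, fun l r X z hl hlr hr hX hz q hq => ?_⟩
  have hl1 : 1 ≤ l := by omega
  have hr1 : 1 ≤ r := by omega
  have hz1 : 1 ≤ l * r ^ 2 := Nat.mul_pos hl1 (by positivity)
  have he2 : exp 2 ≤ 8 := by
    have h1 := exp_one_lt_d9
    have h2 : exp 2 = exp 1 * exp 1 := by rw [← exp_add]; norm_num
    nlinarith [exp_pos 1]
  have he : ∀ a : ℕ, exp (2 * a) ≤ 2 ^ (3 * a) := by
    intro a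
    rw [mul_comm, exp_nat_mul, pow_mul]
    norm_num
    gcongr
  have hlam : ∑ p ∈ (Nat.primesLE z).filter (fun p => Nat.Coprime p q), (1 : ℝ) / p ≤
      ((3 * l : ℕ) : ℝ) := by
    refine (sum_le_sum_of_subset_of_nonneg (filter_subset _ _) fun _ _ _ => by positivity).trans ?_
    have h1 := hC z (hz ▸ Nat.le_self_pow (by omega) 2)
    have h2 := loglog_le (a := l * r ^ 2) (b := 3 * l) hz1 (by
      calc l * r ^ 2 ≤ 2 ^ l * (2 ^ l) ^ 2 := by gcongr; omega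
        _ = _ := by ring)
    have h3 := Nat.le_ceil C
    have h4 : ((2 * ⌈C⌉₊ + 1 : ℕ) : ℝ) ≤ l := by exact_mod_cast hl
    have h5 : (0 : ℝ) ≤ ⌈C⌉₊ := Nat.cast_nonneg _
    rw [hz] at h1 ⊢
    push_cast at *
    linarith
  have h6 : 1 / (2 : ℝ) ^ (9 * l) ≤ exp (-(2 * ((3 * l : ℕ) : ℝ))) := by
    have := he (3 * l)
    rw [exp_neg, one_div, show 9 * l = 3 * (3 * l) by ring]
    gcongr
  have h := rough_count ((Nat.primesLE z).filter fun p => Nat.Coprime p q) (q := q) (z := z)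
    (h := 9 * l) (q * (X + 1) - 1) X (by rw [hz]; positivity)
    (fun p hp => ⟨Nat.prime_of_mem_primesLE (mem_filter.mp hp).1, (mem_filter.mp hp).2⟩)
    (by
      refine (card_filter_le _ _).trans ?_
      rw [Nat.primesLE_eq_filter_Ioc_zero]
      exact (card_filter_le _ _).trans (by simp))
    hlam
    (by
      have := he (6 * l)
      rw [show 4 * ((3 * l : ℕ) : ℝ) = 2 * ((6 * l : ℕ) : ℝ) by push_cast; ring,
        show 2 * (9 * l) + 2 = 3 * (6 * l) + 2 by ring, pow_add]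
      linarith)
    (by
      refine le_trans ?_ (mul_le_mul_of_nonneg_left h6 (Nat.cast_nonneg _))
      rw [mul_one_div, le_div_iff₀ (by positivity), hX, hz]
      push_cast
      calc 12 * ((2 : ℝ) ^ (l * r ^ 2)) ^ (2 * (9 * l) + 1) * 2 ^ (9 * l)
          ≤ 2 ^ 4 * ((2 : ℝ) ^ (l * r ^ 2)) ^ (2 * (9 * l) + 1) * 2 ^ (9 * l) := by
            gcongr; norm_num
        _ = 2 ^ (4 + l * r ^ 2 * (2 * (9 * l) + 1) + 9 * l) := by
            rw [← pow_mul, ← pow_add, ← pow_add]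
        _ ≤ _ := by
            refine pow_le_pow_right₀ (by norm_num) ?_
            have h1 : l * 1 ≤ l * r ^ 2 := Nat.mul_le_mul_left _ (Nat.one_le_pow _ _ hr1)
            have h2 : 1 * (l * r ^ 2) ≤ l * (l * r ^ 2) := Nat.mul_le_mul_right _ hl1
            nlinarith)
  refine le_trans ?_ (h.trans (Nat.cast_le.mpr (card_le_card fun j hj => ?_)))
  · rw [pow_succ, ← div_div]
    exact mul_le_mul_of_nonneg_right (div_le_div_of_nonneg_right h6 (by norm_num))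
      (Nat.cast_nonneg _)
  · obtain ⟨h1, h2⟩ := mem_filter.mp hj
    refine mem_filter.mpr ⟨h1, fun p hp hd => ?_⟩
    have hpp := Nat.prime_of_mem_primesLE hp
    by_cases hc : Nat.Coprime p q
    · exact h2 p (mem_filter.mpr ⟨hp, hc⟩) hd
    · have h3 : p ∣ q := by
        by_contra h; exact hc (hpp.coprime_iff_not_dvd.mpr h)
      have h4 : p ∣ dd X ((q, 0), j) + 1 := by rw [dd_add hq]; exact h3.mul_right _
      exact hpp.not_dvd_one ((Nat.dvd_add_right hd).mp h4)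

end Pool.Agent.Lib.MP_852f56_nt
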