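import Mathlib

/-!
Sums of periodic functions and conditional expectations of congruence conditions.
-/

open Finset

namespace Pool.Agent.Lib.MP_852f56_nt

/-- Indicator of `d ∣ k + c`. -/
noncomputable def ind (d c k : ℕ) : ℝ := if d ∣ k + c then 1 else 0

lemma ind_nonneg (d c k : ℕ) : 0 ≤ ind d c k := by
  unfold ind; split_ifs <;> norm_num

lemma ind_le_one (d c k : ℕ) : ind d c k ≤ 1 := by
  unfold ind; split_ifs <;> norm_num

lemma ind_one (c k : ℕ) : ind 1 c k = 1 := by
  unfold ind; simp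

lemma ind_periodic {d M : ℕ} (c : ℕ) (h : d ∣ M) : Function.Periodic (ind d c) M := by
  intro k
  unfold ind
  have : d ∣ k + M + c ↔ d ∣ k + c := by
    rw [show k + M + c = (k + c) + M by ring]
    exact (Nat.dvd_add_left h)
  simp only [this]

lemma sum_shift {M : ℕ} {f : ℕ → ℝ} (hf : Function.Periodic f M) (j : ℕ) :
    ∑ k ∈ range M, f (k + j) = ∑ k ∈ range M, f k := by
  induction j with
  | zero => simp
  | succ j ih =>
    have h1 := sum_range_succ' (fun k => f (k + j)) M
    have h2 := sum_range_succ (fun k => f (k + j)) M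
    have h3 : f (M + j) = f (0 + j) := by rw [add_comm M j, zero_add]; exact hf j
    have h4 : ∑ k ∈ range M, f (k + (j + 1)) = ∑ k ∈ range M, f (k + 1 + j) :=
      sum_congr rfl fun k _ => by rw [show k + (j + 1) = k + 1 + j by ring]
    linarith

lemma sum_mul_period {D : ℕ} {f : ℕ → ℝ} (hf : Function.Periodic f D) (a : ℕ) :
    ∑ k ∈ range (a * D), f k = a * ∑ k ∈ range D, f k := by
  induction a with
  | zero => simp
  | succ a ih =>
    rw [add_mul, one_mul, sum_range_add, ih]
    have : ∑ k ∈ range D, f (a * D + k) = ∑ k ∈ range D, f k := by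
      rw [← sum_shift hf (a * D)]
      exact sum_congr rfl fun k _ => by rw [add_comm]
    rw [this]; push_cast; ring

lemma sum_le_mean {M D : ℕ} (N : ℕ) (hM : 0 < M) (hD : 0 < D) {f : ℕ → ℝ}
    (hfM : Function.Periodic f M) (hfD : Function.Periodic f D) (hb : ∀ k, |f k| ≤ 1) :
    ∑ k ∈ range N, f k ≤ N * ((∑ k ∈ range M, f k) / M) + 2 * D := by
  have hM' : (0 : ℝ) < M := by exact_mod_cast hM
  have hD' : (0 : ℝ) < D := by exact_mod_cast hD
  set E := (∑ k ∈ range M, f k) / M with hE
  have h1 := sum_mul_period hfM D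
  have h2 := sum_mul_period hfD M
  rw [mul_comm M D, h1] at h2
  have h3 : ∑ k ∈ range D, f k = D * E := by
    rw [hE]; field_simp; linarith
  have hE1 : -1 ≤ E := by
    rw [hE, le_div_iff₀ hM']
    have : ∑ k ∈ range M, (-1 : ℝ) ≤ ∑ k ∈ range M, f k :=
      sum_le_sum fun k _ => (abs_le.mp (hb k)).1
    simpa using this
  have hN : N = (N / D) * D + N % D := by
    have := Nat.div_add_mod N D; rw [mul_comm] at this; omega
  have hb' : N % D < D := Nat.mod_lt _ hD
  set a := N / D
  set b := N % D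
  have hb'' : (b : ℝ) ≤ D := by exact_mod_cast hb'.le
  have h4 : ∑ k ∈ range b, f (a * D + k) ≤ b := by
    have : ∑ k ∈ range b, f (a * D + k) ≤ ∑ k ∈ range b, (1 : ℝ) :=
      sum_le_sum fun k _ => (abs_le.mp (hb _)).2
    simpa using this
  have h5 : (N : ℝ) = a * D + b := by exact_mod_cast hN
  have h6 : ∑ k ∈ range N, f k = a * (D * E) + ∑ k ∈ range b, f (a * D + k) := by
    conv_lhs => rw [hN]
    rw [sum_range_add, sum_mul_period hfD, h3]
  rw [h6, h5]
  have hb0 : (0 : ℝ) ≤ b := Nat.cast_nonneg _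
  nlinarith

lemma sum_ind_coprime {d L : ℕ} (hd : 0 < d) (h : Nat.Coprime d L) (a : ℕ) :
    ∑ j ∈ range d, (if d ∣ a + j * L then (1 : ℝ) else 0) = 1 := by
  have : NeZero d := ⟨hd.ne'⟩
  have hu : IsUnit (L : ZMod d) := (ZMod.isUnit_iff_coprime L d).mpr h.symm
  obtain ⟨u, hu⟩ := hu
  set j0 : ℕ := (-(a : ZMod d) * (↑u⁻¹ : ZMod d)).val with hj0
  have key : ∀ j ∈ range d, (d ∣ a + j * L ↔ j = j0) := by
    intro j hj
    rw [← ZMod.natCast_eq_zero_iff]
    push_cast
    rw [← hu]
    constructor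
    · intro h1
      have h2 : (j : ZMod d) = -(a : ZMod d) * (↑u⁻¹ : ZMod d) := by
        have h3 : (j : ZMod d) * (u : ZMod d) = -(a : ZMod d) := by linear_combination h1
        rw [← h3, mul_assoc, Units.mul_inv, mul_one]
      rw [hj0, ← h2, ZMod.val_natCast_of_lt (mem_range.mp hj)]
    · intro h1
      rw [h1, hj0, ZMod.natCast_zmod_val, mul_assoc, Units.inv_mul]
      ring
  have hj : j0 ∈ range d := mem_range.mpr (ZMod.val_lt _)
  rw [sum_congr rfl fun j hj => by rw [if_congr (key j hj) rfl rfl]]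
  simp [hj]

lemma sum_ind_shift {d : ℕ} (hd : 0 < d) (L c k : ℕ) :
    ∑ j ∈ range d, ind d c (k + j * L) = (Nat.gcd d L : ℝ) * ind (Nat.gcd d L) c k := by
  set g := Nat.gcd d L with hg
  have hg0 : 0 < g := Nat.gcd_pos_of_pos_left _ hd
  obtain ⟨d', hd'⟩ : g ∣ d := Nat.gcd_dvd_left d L
  obtain ⟨L', hL'⟩ : g ∣ L := Nat.gcd_dvd_right d L
  have hcop : Nat.Coprime d' L' := by
    have h1 : Nat.gcd (g * d') (g * L') = g := by rw [← hd', ← hL']
    rw [Nat.gcd_mul_left] at h1
    exact (Nat.mul_eq_left hg0.ne').mp h1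
  have hd0 : 0 < d' := Nat.pos_of_ne_zero (by rintro rfl; omega)
  by_cases h : g ∣ k + c
  · obtain ⟨a, ha⟩ := h
    have e : ∀ j, ind d c (k + j * L) = if d' ∣ a + j * L' then (1 : ℝ) else 0 := by
      intro j
      unfold ind
      have : k + j * L + c = g * (a + j * L') := by rw [hL', mul_add, ← ha]; ring
      rw [this]
      conv_lhs => rw [hd']
      simp only [Nat.mul_dvd_mul_iff_left hg0]
    have hper : Function.Periodic (fun j => if d' ∣ a + j * L' then (1 : ℝ) else 0) d' := by
      intro j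
      have : d' ∣ a + (j + d') * L' ↔ d' ∣ a + j * L' := by
        rw [show a + (j + d') * L' = (a + j * L') + d' * L' by ring]
        exact Nat.dvd_add_left (dvd_mul_right _ _)
      simp only [this]
    rw [sum_congr rfl fun j _ => e j]
    conv_lhs => rw [hd']
    rw [sum_mul_period hper, sum_ind_coprime hd0 hcop]
    unfold ind
    rw [if_pos ⟨a, ha⟩]
  · have e : ∀ j, ind d c (k + j * L) = 0 := by
      intro j
      unfold ind
      rw [if_neg]
      intro h1
      apply h
      have h2 : g ∣ (k + c) + j * L := by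
        rw [show k + c + j * L = k + j * L + c by ring]
        exact (Nat.gcd_dvd_left d L).trans h1
      exact (Nat.dvd_add_left (Dvd.dvd.mul_left (Nat.gcd_dvd_right d L) j)).mp h2
    unfold ind at *
    simp [e, h]

/-- Conditional expectation of a congruence condition against an `L`-periodic function. -/
lemma sum_mul_ind {M L d : ℕ} (c : ℕ) (hd : 0 < d) (hdM : d ∣ M) {f : ℕ → ℝ}
    (hfM : Function.Periodic f M) (hfL : Function.Periodic f L) :
    ∑ k ∈ range M, f k * ind d c k =
      ∑ k ∈ range M, f k * ((Nat.gcd d L : ℝ) / d * ind (Nat.gcd d L) c k) := by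
  have hd' : (0 : ℝ) < d := by exact_mod_cast hd
  have hper : Function.Periodic (fun k => f k * ind d c k) M := hfM.mul (ind_periodic c hdM)
  have h1 : ∀ j : ℕ, ∑ k ∈ range M, f k * ind d c k =
      ∑ k ∈ range M, f k * ind d c (k + j * L) := by
    intro j
    rw [← sum_shift hper (j * L)]
    refine sum_congr rfl fun k _ => ?_
    have := hfL.nat_mul j k
    simp only [Nat.cast_id] at this
    simp only [this]
  have h2 : (d : ℝ) * ∑ k ∈ range M, f k * ind d c k =
      ∑ k ∈ range M, f k * ((Nat.gcd d L : ℝ) * ind (Nat.gcd d L) c k) := by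
    calc (d : ℝ) * ∑ k ∈ range M, f k * ind d c k
        = ∑ j ∈ range d, ∑ k ∈ range M, f k * ind d c (k + j * L) := by
          rw [← sum_congr rfl fun j _ => h1 j]; simp
      _ = ∑ k ∈ range M, ∑ j ∈ range d, f k * ind d c (k + j * L) := sum_comm
      _ = _ := sum_congr rfl fun k _ => by rw [← mul_sum, sum_ind_shift hd]
  apply mul_left_cancel₀ hd'.ne'
  rw [h2, mul_sum]
  refine sum_congr rfl fun k _ => ?_
  field_simp

end Pool.Agent.Lib.MP_852f56_nt
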