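import Pool.Agent.Lib.MP_778b46_nt.Mertens

/-!
Elementary facts on primes and on the number of prime factors.
-/

open Finset Real
open scoped ArithmeticFunction.Omega Pointwise

namespace Pool.Agent.Lib.MP_852f56_nt

/-- Primes in `(x, y]`. -/
def prs (x y : ℕ) : Finset ℕ := (Ioc x y).filter Nat.Prime

lemma err_small {n : ℝ} (hn : 60 ^ 4 ≤ n) : log (n + 1) + 2 * √n * log n ≤ n / 6 := by
  have hn0 : 0 < n := by linarith
  set w := √(√n) with hw
  have h1 : w ^ 2 = √n := Real.sq_sqrt (sqrt_nonneg _)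
  have h2 : w ^ 4 = n := by
    rw [show w ^ 4 = (w ^ 2) ^ 2 by ring, h1, Real.sq_sqrt hn0.le]
  have hw0 : 0 ≤ w := sqrt_nonneg _
  have h3 : 60 ≤ w := by
    by_contra h
    push Not at h
    have : w ^ 4 < 60 ^ 4 := by gcongr
    linarith
  have h4 : log n ≤ 4 * w := by
    rw [← h2, log_pow]
    have := log_le_sub_one_of_pos (show 0 < w by linarith)
    push_cast; linarith
  have h5 : log (n + 1) ≤ 1 + log n := by
    calc log (n + 1) ≤ log (2 * n) := log_le_log (by linarith) (by linarith)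
      _ = log 2 + log n := log_mul (by norm_num) hn0.ne'
      _ ≤ _ := by linarith [log_two_lt_d9]
  have h6 : 2 * √n * log n ≤ 2 * w ^ 2 * (4 * w) := by rw [h1]; gcongr
  have h7 : 60 * w ^ 3 ≤ w ^ 4 := by nlinarith [pow_nonneg hw0 3]
  have h8 : 60 * w ≤ w ^ 2 := by nlinarith
  have h9 : 60 * w ^ 2 ≤ w ^ 3 := by nlinarith
  nlinarith

lemma prs_block {x : ℕ} (hx : 60 ^ 4 ≤ x) :
    1 / (3 * log (8 * x : ℕ)) ≤ ∑ p ∈ prs x (8 * x), (1 : ℝ) / p := by
  have hx' : (60 : ℝ) ^ 4 ≤ x := by exact_mod_cast hx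
  have hx0 : (0 : ℝ) < x := by linarith
  have h1 := Chebyshev.theta_ge (8 * x)
  have h2 := Chebyshev.theta_le_log4_mul_x hx0.le
  have h3 := err_small (n := ((8 * x : ℕ) : ℝ)) (by push_cast; linarith)
  have h4 : Chebyshev.theta (8 * x : ℕ) = Chebyshev.theta x + ∑ p ∈ prs x (8 * x), log p := by
    rw [Chebyshev.theta_eq_sum_primesLE_log, Chebyshev.theta_eq_sum_primesLE_log,
      Nat.primesLE_eq_filter_Ioc_zero, Nat.primesLE_eq_filter_Ioc_zero, prs, sum_filter,
      sum_filter, sum_filter, sum_Ioc_consecutive _ (Nat.zero_le _) (by omega)]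
  have h5 : log 4 = 2 * log 2 := by
    rw [show (4 : ℝ) = 2 ^ 2 by norm_num, log_pow]; norm_num
  have h6 : ((8 * x : ℕ) : ℝ) / 3 ≤ ∑ p ∈ prs x (8 * x), log p := by
    have h7 := log_two_gt_d9
    have h8 : ((8 * x : ℕ) : ℝ) = 8 * x := by push_cast; ring
    have h9 : 0.69 * (x : ℝ) ≤ log 2 * x := by gcongr; linarith
    rw [h5] at h2
    rw [h4] at h1
    have h10 : ((8 * x : ℕ) : ℝ) * log 2 = 8 * (log 2 * x) := by rw [h8]; ring
    linarith
  have hl : 0 < log ((8 * x : ℕ) : ℝ) := log_pos (by push_cast; linarith)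
  have h9 : ∑ p ∈ prs x (8 * x), log p ≤
      ((8 * x : ℕ) : ℝ) * log (8 * x : ℕ) * ∑ p ∈ prs x (8 * x), (1 : ℝ) / p := by
    rw [mul_sum]
    refine sum_le_sum fun p hp => ?_
    obtain ⟨hp1, hp2⟩ := mem_filter.mp hp
    have hp0 : (0 : ℝ) < p := by exact_mod_cast hp2.pos
    have hp3 : (p : ℝ) ≤ (8 * x : ℕ) := by exact_mod_cast (mem_Ioc.mp hp1).2
    have := log_le_log hp0 hp3
    rw [mul_one_div, le_div_iff₀ hp0, mul_comm]
    have := log_natCast_nonneg p
    gcongr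
  have h10 : (0 : ℝ) < (8 * x : ℕ) := by push_cast; linarith
  rw [div_le_iff₀ (by positivity)]
  nlinarith

lemma prs_blocks {x : ℕ} (hx : 60 ^ 4 ≤ x) (j : ℕ) :
    j / (3 * log (8 ^ j * x : ℕ)) ≤ ∑ p ∈ prs x (8 ^ j * x), (1 : ℝ) / p := by
  induction j with
  | zero => simp [prs]
  | succ j ih =>
    have h1 : x ≤ 8 ^ j * x := Nat.le_mul_of_pos_left _ (by positivity)
    have h2 := prs_block (hx.trans h1)
    have e : 8 ^ (j + 1) * x = 8 * (8 ^ j * x) := by ring
    rw [e]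
    set y := 8 ^ j * x
    have h3 : ∑ p ∈ prs x (8 * y), (1 : ℝ) / p =
        ∑ p ∈ prs x y, (1 : ℝ) / p + ∑ p ∈ prs y (8 * y), (1 : ℝ) / p := by
      unfold prs
      rw [sum_filter, sum_filter, sum_filter, sum_Ioc_consecutive _ h1 (by omega)]
    have hy : (1 : ℝ) < y := by exact_mod_cast (show 1 < y by omega)
    have h4 : (j : ℝ) / (3 * log (8 * y : ℕ)) ≤ j / (3 * log y) := by
      have := log_pos hy
      gcongr
      omega
    rw [h3]
    push_cast at *
    rw [add_div]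
    linarith

lemma sum_dvd_le {g A : ℕ} (hg : 0 < g) (S : Finset ℕ) (hS : ∀ a ∈ S, g ∣ a ∧ 1 ≤ a ∧ a ≤ A)
    (f : ℕ → ℝ) (hf : ∀ a, 0 ≤ f a) : ∑ a ∈ S, f a ≤ ∑ b ∈ Icc 1 A, f (g * b) := by
  rw [← sum_image (s := Icc 1 A) (g := fun b => g * b)
    fun a _ b _ h => Nat.eq_of_mul_eq_mul_left hg h]
  refine sum_le_sum_of_subset_of_nonneg (fun a ha => ?_) fun a _ _ => hf a
  obtain ⟨⟨b, rfl⟩, h1, h2⟩ := hS a ha
  refine mem_image.mpr ⟨b, mem_Icc.mpr ⟨?_, ?_⟩, rfl⟩
  · exact Nat.pos_of_ne_zero (by rintro rfl; simp at h1)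
  · exact (Nat.le_mul_of_pos_left _ hg).trans h2

/-- Harmonic sum. -/
noncomputable def hs (A : ℕ) : ℝ := ∑ a ∈ Icc 1 A, (1 : ℝ) / a

lemma hs_eq (A : ℕ) : hs A = (harmonic A : ℝ) := by
  rw [harmonic_eq_sum_Icc, hs]; push_cast; simp

lemma log_le_hs (A : ℕ) : log A ≤ hs A := by
  rw [hs_eq]
  refine le_trans ?_ (log_add_one_le_harmonic A)
  rcases A.eq_zero_or_pos with rfl | h
  · simp
  · exact log_le_log (by exact_mod_cast h) (by push_cast; linarith)

lemma hs_le (A : ℕ) : hs A ≤ 1 + log A := by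
  rw [hs_eq]; exact harmonic_le_one_add_log A

lemma sum_fact_le {p : ℕ} (hp : p.Prime) (A : ℕ) :
    ∑ a ∈ Icc 1 A, (a.factorization p : ℝ) / a ≤ 2 * (1 / p) * hs A := by
  set T := ∑ a ∈ Icc 1 A, (a.factorization p : ℝ) / a with hT
  have hp2 : (2 : ℝ) ≤ p := by exact_mod_cast hp.two_le
  have h1 : T = ∑ a ∈ (Icc 1 A).filter (p ∣ ·), (a.factorization p : ℝ) / a := by
    rw [hT, sum_filter]
    refine sum_congr rfl fun a _ => ?_
    split_ifs with h
    · rfl
    · simp [Nat.factorization_eq_zero_of_not_dvd h]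
  have h2 := sum_dvd_le (A := A) hp.pos ((Icc 1 A).filter (p ∣ ·))
    (fun a ha => ⟨(mem_filter.mp ha).2, mem_Icc.mp (mem_filter.mp ha).1⟩)
    (fun a => (a.factorization p : ℝ) / a) fun a => by positivity
  have h3 : ∑ b ∈ Icc 1 A, ((p * b).factorization p : ℝ) / ((p * b : ℕ) : ℝ) = (hs A + T) / p := by
    rw [hT, hs, ← sum_add_distrib, sum_div]
    refine sum_congr rfl fun b hb => ?_
    have hb0 : b ≠ 0 := by have := (mem_Icc.mp hb).1; omega
    rw [Nat.factorization_mul hp.ne_zero hb0, Finsupp.add_apply, hp.factorization_self]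
    have : (b : ℝ) ≠ 0 := by exact_mod_cast hb0
    push_cast; field_simp
  rw [← h1, h3, le_div_iff₀ (by linarith)] at h2
  have hH : 0 ≤ hs A := sum_nonneg fun a _ => by positivity
  have hT0 : 0 ≤ T := sum_nonneg fun a _ => by positivity
  rw [show 2 * (1 / (p : ℝ)) * hs A = 2 * hs A / p by ring, le_div_iff₀ (by linarith)]
  nlinarith

lemma sum_omega_le (A : ℕ) :
    ∑ a ∈ Icc 1 A, (Ω a : ℝ) / a ≤ 2 * (∑ p ∈ Nat.primesLE A, (1 : ℝ) / p) * hs A := by
  have h1 : ∀ a ∈ Icc 1 A, (Ω a : ℝ) / a = ∑ p ∈ Nat.primesLE A, (a.factorization p : ℝ) / a := by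
    intro a ha
    obtain ⟨ha1, ha2⟩ := mem_Icc.mp ha
    rw [← sum_div, ArithmeticFunction.cardFactors_eq_sum_factorization,
      Finsupp.sum_of_support_subset (s := Nat.primesLE A) _ _ _ fun _ _ => rfl]
    · push_cast; rfl
    · intro p hp
      rw [Nat.support_factorization] at hp
      exact Nat.mem_primesLE.mpr ⟨(Nat.le_of_mem_primeFactors hp).trans ha2,
        Nat.prime_of_mem_primeFactors hp⟩
  rw [sum_congr rfl h1, sum_comm, mul_sum, sum_mul]
  exact sum_le_sum fun p hp => sum_fact_le (Nat.prime_of_mem_primesLE hp) A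

/-- Integers up to `A` with at most `t` prime factors. -/
def few (A t : ℕ) : Finset ℕ := (Icc 1 A).filter fun a => Ω a ≤ t

lemma few_weight {A t : ℕ} (ht : 0 < t) (h : 4 * ∑ p ∈ Nat.primesLE A, (1 : ℝ) / p ≤ t) :
    log A / 2 ≤ ∑ a ∈ few A t, (1 : ℝ) / a := by
  have ht' : (0 : ℝ) < t := by exact_mod_cast ht
  have h1 := sum_omega_le A
  have h2 : hs A = ∑ a ∈ few A t, (1 : ℝ) / a +
      ∑ a ∈ (Icc 1 A).filter (fun a => ¬ Ω a ≤ t), (1 : ℝ) / a := by
    rw [hs, few, sum_filter_add_sum_filter_not]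
  have h3 : t * ∑ a ∈ (Icc 1 A).filter (fun a => ¬ Ω a ≤ t), (1 : ℝ) / a ≤
      ∑ a ∈ Icc 1 A, (Ω a : ℝ) / a := by
    rw [mul_sum]
    refine le_trans (sum_le_sum fun a ha => ?_)
      (sum_le_sum_of_subset_of_nonneg (filter_subset (fun a => ¬ Ω a ≤ t) _)
        fun a _ _ => by positivity)
    have : (t : ℝ) ≤ Ω a := by exact_mod_cast (not_le.mp (mem_filter.mp ha).2).le
    rw [mul_one_div]; gcongr
  have hH : 0 ≤ hs A := sum_nonneg fun a _ => by positivity
  have h4 := log_le_hs A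
  have h5 : t * ∑ a ∈ (Icc 1 A).filter (fun a => ¬ Ω a ≤ t), (1 : ℝ) / a ≤ t * (hs A / 2) := by
    nlinarith
  have h6 := le_of_mul_le_mul_left h5 ht'
  linarith

lemma sum_divisors_pow_le (i : ℕ) {n : ℕ} (hn : n ≠ 0) :
    ∑ e ∈ n.divisors, i ^ Ω e ≤ (i + 1) ^ Ω n := by
  induction n using induction_on_primes with
  | zero => exact absurd rfl hn
  | one => simp
  | prime_mul p m hp ih =>
    have hm : m ≠ 0 := by rintro rfl; simp at hn
    have h1 : (p * m).divisors ⊆ m.divisors ∪ m.divisors.image (p * ·) := by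
      intro e he
      have he' := Nat.dvd_of_mem_divisors he
      by_cases h : p ∣ e
      · obtain ⟨f, rfl⟩ := h
        exact mem_union_right _ (mem_image.mpr ⟨f, Nat.mem_divisors.mpr
          ⟨Nat.dvd_of_mul_dvd_mul_left hp.pos he', hm⟩, rfl⟩)
      · exact mem_union_left _ (Nat.mem_divisors.mpr
          ⟨((hp.coprime_iff_not_dvd.mpr h).symm).dvd_of_dvd_mul_left he', hm⟩)
    have h2 : ∑ e ∈ m.divisors.image (p * ·), i ^ Ω e = i * ∑ e ∈ m.divisors, i ^ Ω e := by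
      rw [sum_image fun a _ b _ h => Nat.eq_of_mul_eq_mul_left hp.pos h, mul_sum]
      refine sum_congr rfl fun e he => ?_
      rw [ArithmeticFunction.cardFactors_mul hp.ne_zero (Nat.pos_of_mem_divisors he).ne',
        ArithmeticFunction.cardFactors_apply_prime hp, pow_add, pow_one]
    have h3 := sum_union_inter (s₁ := m.divisors) (s₂ := m.divisors.image (p * ·))
      (f := fun e => i ^ Ω e)
    have h4 := sum_le_sum_of_subset (f := fun e => i ^ Ω e) h1
    have h5 := ih hm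
    rw [ArithmeticFunction.cardFactors_mul hp.ne_zero hm,
      ArithmeticFunction.cardFactors_apply_prime hp, pow_add, pow_one]
    have h6 := Nat.mul_le_mul_left (i + 1) h5
    nlinarith [Nat.zero_le (∑ e ∈ m.divisors ∩ m.divisors.image (p * ·), i ^ Ω e)]

lemma omega_mono {a b : ℕ} (hb : b ≠ 0) (h : a ∣ b) : Ω a ≤ Ω b := by
  obtain ⟨c, rfl⟩ := h
  rw [ArithmeticFunction.cardFactors_mul (left_ne_zero_of_mul hb) (right_ne_zero_of_mul hb)]
  omega

lemma pow_omega_le {z n : ℕ} (hn : n ≠ 0) (h : ∀ p, p.Prime → p ∣ n → z ≤ p) : z ^ Ω n ≤ n := by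
  rw [ArithmeticFunction.cardFactors_apply]
  conv_rhs => rw [← Nat.prod_primeFactorsList hn]
  exact List.pow_card_le_prod _ _ fun p hp =>
    h p (Nat.prime_of_mem_primeFactorsList hp) (Nat.dvd_of_mem_primeFactorsList hp)

lemma card_primeFactors_le (n : ℕ) : n.primeFactors.card ≤ Ω n := by
  rw [ArithmeticFunction.cardFactors_apply]
  exact List.toFinset_card_le _

lemma mem_pow_of_omega (S : Finset ℕ) : ∀ (u g : ℕ), g ≠ 0 → Ω g ≤ u →
    (∀ p, p.Prime → p ∣ g → p ∈ S) → g ∈ (insert 1 S) ^ u := by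
  intro u
  induction u with
  | zero =>
    intro g hg h _
    have := ArithmeticFunction.cardFactors_eq_zero_iff_eq_zero_or_one.mp (Nat.le_zero.mp h)
    rcases this with rfl | rfl
    · exact absurd rfl hg
    · simp
  | succ u ih =>
    intro g hg h hS
    rw [pow_succ']
    by_cases h1 : g = 1
    · subst h1
      exact mem_mul.mpr ⟨1, mem_insert_self _ _, 1, ih 1 one_ne_zero (by simp)
        (fun p hp h => absurd (Nat.dvd_one.mp h) hp.ne_one), rfl⟩
    · obtain ⟨p, hp, f, rfl⟩ := Nat.exists_prime_and_dvd h1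
      have hf : f ≠ 0 := right_ne_zero_of_mul hg
      rw [ArithmeticFunction.cardFactors_mul hp.ne_zero hf,
        ArithmeticFunction.cardFactors_apply_prime hp] at h
      exact mem_mul.mpr ⟨p, mem_insert_of_mem (hS p hp (dvd_mul_right _ _)), f,
        ih f hf (by omega) fun l hl h => hS l hl (h.mul_left _), rfl⟩

lemma card_small_divisors {L w u : ℕ} (hL : L ≠ 0) (hw : Ω L ≤ w) :
    (L.divisors.filter fun g => Ω g ≤ u).card ≤ (w + 1) ^ u := by
  have h1 : (L.divisors.filter fun g => Ω g ≤ u) ⊆ (insert 1 L.primeFactors) ^ u := by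
    intro g hg
    obtain ⟨hg1, hg2⟩ := mem_filter.mp hg
    exact mem_pow_of_omega _ u g (Nat.pos_of_mem_divisors hg1).ne' hg2 fun p hp h =>
      Nat.mem_primeFactors.mpr ⟨hp, h.trans (Nat.dvd_of_mem_divisors hg1), hL⟩
  refine (card_le_card h1).trans (card_pow_le.trans (Nat.pow_le_pow_left ?_ _))
  have := card_insert_le 1 L.primeFactors
  have := card_primeFactors_le L
  omega

end Pool.Agent.Lib.MP_852f56_nt
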