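import Pool.Agent.Lib.MP_852f56_nt.Family
import Pool.Agent.Lib.MP_852f56_nt.Moment
import Pool.Agent.Lib.MP_852f56_nt.Rough

/-!
The sieve applied to the moduli `q n - 1`.
-/

open Finset Real
open scoped ArithmeticFunction.Omega

namespace Pool.Agent.Lib.MP_852f56_nt

lemma moment_sieve' {α : Type*} (F : Finset α) (d c : α → ℕ) {m y : ℕ} (M N : ℕ)
    (hd : ∀ i ∈ F, 0 < d i) (hy : ∀ i ∈ F, d i ≤ y) {P : ℕ → ℕ → Prop} (h0 : P 0 1)
    (hP : ∀ j L, ∀ i ∈ F, P j L → P (j + 1) (L * d i)) {δ μ0 : ℝ} (hδ0 : 0 ≤ δ) (hδ1 : δ ≤ 1)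
    (hμ0 : 1 ≤ μ0) (hμ : μ0 ≤ ∑ i ∈ F, 1 / (d i : ℝ))
    (hV : ∀ j L, j < 2 * m → P j L → ∀ k, ∑ i ∈ F.filter (fun i => ¬ Nat.Coprime (d i) L),
      ((Nat.gcd (d i) L : ℝ) / d i * ind (Nat.gcd (d i) L) (c i) k + 1 / (d i : ℝ)) ≤ δ * μ0) :
    (((range N).filter fun k => ∀ i ∈ F, ¬ d i ∣ M + k + c i).card : ℝ) ≤
      N * (12 * δ) ^ m + 2 * ((F.card : ℝ) * y) ^ (2 * m) := by
  classical
  have h := moment_sieve (ι := F) (fun i => d i) (fun i => M + c i) (m := m) (y := y) N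
    (fun i => hd i i.2) (fun i => hy i i.2) h0 (fun j L i => hP j L i i.2) (V := δ * μ0)
    (by positivity) (fun j L hj hL k => by
      have := hV j L hj hL (k + M)
      rw [sum_filter, ← sum_coe_sort F] at this
      rw [sum_filter]
      simpa only [ind, add_assoc] using this)
  rw [sum_coe_sort F (fun i => 1 / (d i : ℝ)), Fintype.card_coe] at h
  set μ := ∑ i ∈ F, 1 / (d i : ℝ)
  have hμ1 : 1 ≤ μ := hμ0.trans hμ
  have e : ((range N).filter fun k => ∀ i : F, ¬ d i ∣ k + (M + c i)) =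
      (range N).filter fun k => ∀ i ∈ F, ¬ d i ∣ M + k + c i := by
    refine filter_congr fun k _ => ?_
    simp [add_assoc, add_left_comm]
  rw [e] at h
  have h1 : 4 * (2 * μ + δ * μ0) * (δ * μ0) ≤ 12 * δ * μ ^ 2 := by
    have h2 : δ * μ0 ≤ 1 * μ := by gcongr
    calc 4 * (2 * μ + δ * μ0) * (δ * μ0) ≤ 4 * (3 * μ) * (δ * μ) := by
          gcongr; linarith
      _ = _ := by ring
  have h3 : (1 : ℝ) ≤ μ ^ (2 * m) := one_le_pow₀ hμ1
  apply le_of_mul_le_mul_right _ (show 0 < μ ^ (2 * m) by positivity)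
  refine h.trans ?_
  rw [add_mul]
  refine add_le_add ?_ (le_mul_of_one_le_right (by positivity) h3)
  rw [mul_assoc (N : ℝ), pow_mul μ, ← mul_pow]
  gcongr

/-- The modulus `q n - 1` with `n = X + 1 + j`. -/
def dd (X : ℕ) (w : (ℕ × ℕ) × ℕ) : ℕ := (w.1.1 * (X + 1) - 1) + w.2 * w.1.1

/-- The shift `s + n - 2` with `n = X + 1 + j`. -/
def cc (X : ℕ) (w : (ℕ × ℕ) × ℕ) : ℕ := (w.1.2 + X - 1) + w.2

lemma dd_add {X : ℕ} {w : (ℕ × ℕ) × ℕ} (h : 1 ≤ w.1.1) : dd X w + 1 = w.1.1 * (X + 1 + w.2) := by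
  have : 1 ≤ w.1.1 * (X + 1) := Nat.mul_pos h (by omega)
  unfold dd
  rw [mul_add w.1.1 (X + 1), mul_comm w.2]
  omega

lemma cc_add {X : ℕ} (w : (ℕ × ℕ) × ℕ) (h : 1 ≤ X) : cc X w + 2 = w.1.2 + (X + 1 + w.2) := by
  unfold cc; omega

lemma dd_ge {X : ℕ} {w : (ℕ × ℕ) × ℕ} (h : 1 ≤ w.1.1) : w.1.1 * X ≤ dd X w := by
  have := dd_add (X := X) h
  rw [mul_add, mul_add] at this
  omega

lemma dd_le {X : ℕ} {w : (ℕ × ℕ) × ℕ} (h : 1 ≤ w.1.1) (hj : w.2 < X) :
    dd X w ≤ 2 * w.1.1 * X := by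
  have h1 := dd_add (X := X) h
  have h2 : w.1.1 * (X + 1 + w.2) ≤ w.1.1 * (2 * X) := Nat.mul_le_mul_left _ (by omega)
  rw [mul_comm 2, mul_assoc]
  omega

lemma top_inj {Q X q s n q' s' n' : ℕ} (hX : Q ^ 2 ≤ X) (h1 : s < q) (h2 : q ≤ Q)
    (h4 : q' ≤ Q) (h5 : X < n) (e1 : q * n = q' * n') (e2 : s + n = s' + n') : q ≤ q' := by
  by_contra h
  have h6 : (q' + 1) * n ≤ q * n := Nat.mul_le_mul_right _ (by omega)
  have h7 : q' * n' ≤ q' * (n + s) := Nat.mul_le_mul_left _ (by omega)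
  have h8 : q' * s ≤ Q * Q := Nat.mul_le_mul h4 (by omega)
  nlinarith

lemma inv_dd_le {X : ℕ} {w : (ℕ × ℕ) × ℕ} (h : 1 ≤ w.1.1) (hX : 1 ≤ X) :
    1 / (dd X w : ℝ) ≤ 1 / (w.1.1 : ℝ) * (1 / X) := by
  have h1 : ((w.1.1 * X : ℕ) : ℝ) ≤ dd X w := by exact_mod_cast dd_ge h
  have h2 : (0 : ℝ) < (w.1.1 * X : ℕ) := by exact_mod_cast Nat.mul_pos h hX
  rw [one_div_mul_one_div, ← Nat.cast_mul]
  gcongr

section

variable {B : Finset (ℕ × ℕ)} {Q X z : ℕ}

lemma V1_bound (hB : ∀ x ∈ B, x.2 < x.1 ∧ x.1 ≤ Q) (hz : 1 ≤ z) (hzX : z ≤ X)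
    {F : Finset ((ℕ × ℕ) × ℕ)} (hF : F ⊆ B ×ˢ range X) {L w : ℕ} (hL : L ≠ 0) (hw : Ω L ≤ w)
    (hLz : ∀ p, p.Prime → p ∣ L → z < p) :
    ∑ i ∈ F.filter (fun i => ¬ Nat.Coprime (dd X i) L), 1 / (dd X i : ℝ) ≤
      w * (2 / z * wt B) := by
  have hz' : (0 : ℝ) < z := by exact_mod_cast hz
  have hzX' : (z : ℝ) ≤ X := by exact_mod_cast hzX
  have hW : 0 ≤ wt B := sum_nonneg fun _ _ => by positivity
  calc _ ≤ ∑ i ∈ F.filter (fun i => ¬ Nat.Coprime (dd X i) L),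
        ∑ l ∈ L.primeFactors, if l ∣ dd X i then 1 / (dd X i : ℝ) else 0 := by
        refine sum_le_sum fun i hi => ?_
        obtain ⟨l, hl, h1, h2⟩ := Nat.Prime.not_coprime_iff_dvd.mp (mem_filter.mp hi).2
        refine le_trans ?_ (single_le_sum (f := fun l => if l ∣ dd X i then 1 / (dd X i : ℝ) else 0)
          (fun l _ => by positivity) (Nat.mem_primeFactors.mpr ⟨hl, h2, hL⟩))
        simp [h1]
    _ ≤ ∑ i ∈ B ×ˢ range X, ∑ l ∈ L.primeFactors, if l ∣ dd X i then 1 / (dd X i : ℝ) else 0 :=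
        sum_le_sum_of_subset_of_nonneg ((filter_subset _ _).trans hF)
          fun i _ _ => sum_nonneg fun l _ => by positivity
    _ = ∑ l ∈ L.primeFactors, ∑ x ∈ B, ∑ j ∈ range X,
          if l ∣ dd X (x, j) then 1 / (dd X (x, j) : ℝ) else 0 := by
        rw [sum_comm]; exact sum_congr rfl fun l _ => sum_product _ _ _
    _ ≤ ∑ l ∈ L.primeFactors, 2 / z * wt B := by
        refine sum_le_sum fun l hl => ?_
        have hlp := Nat.prime_of_mem_primeFactors hl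
        have hlz : (z : ℝ) ≤ l := by
          exact_mod_cast (hLz l hlp (Nat.dvd_of_mem_primeFactors hl)).le
        rw [wt, mul_sum]
        refine sum_le_sum fun x hx => ?_
        have hx1 : 1 ≤ x.1 := by have := (hB x hx).1; omega
        by_cases hc : Nat.Coprime l x.1
        · have h1 := (abs_le.mp (count_ap hlp.pos hc (x.1 * (X + 1) - 1) X)).2
          calc _ ≤ ∑ j ∈ range X, 1 / (x.1 : ℝ) * (1 / X) *
                if l ∣ x.1 * (X + 1) - 1 + j * x.1 then (1 : ℝ) else 0 := by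
                refine sum_le_sum fun j _ => ?_
                have := inv_dd_le (X := X) (w := (x, j)) hx1 (hz.trans hzX)
                unfold dd at *
                split_ifs
                · simpa using this
                · simp
            _ ≤ 1 / (x.1 : ℝ) * (1 / X) * (X / z + X / z) := by
                rw [← mul_sum]
                have h2 : (X : ℝ) / l ≤ X / z := by gcongr
                have h3 : (1 : ℝ) ≤ X / z := by rw [le_div_iff₀ hz']; linarith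
                gcongr
                linarith
            _ = _ := by
                have : (X : ℝ) ≠ 0 := by linarith
                field_simp; ring
        · have h1 : l ∣ x.1 := by
            by_contra h; exact hc (hlp.coprime_iff_not_dvd.mpr h)
          rw [sum_eq_zero]
          · positivity
          · intro j _
            rw [if_neg]
            intro h2
            have h3 : l ∣ dd X (x, j) + 1 := by rw [dd_add hx1]; exact h1.mul_right _
            exact hlp.not_dvd_one ((Nat.dvd_add_right h2).mp h3)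
    _ ≤ _ := by
        rw [sum_const, nsmul_eq_mul]
        gcongr
        exact (card_primeFactors_le L).trans hw

lemma T_large (hB : ∀ x ∈ B, x.2 < x.1 ∧ x.1 ≤ Q) (hX : Q ^ 2 ≤ X) (hX1 : 1 ≤ X) {g : ℕ}
    (hg : 2 * X < g) (k : ℕ) :
    ∑ i ∈ (B ×ˢ range X).filter (fun i => g ∣ dd X i ∧ g ∣ k + cc X i), (g : ℝ) / dd X i ≤
      1 + log (2 * Q * X : ℕ) := by
  set S := (B ×ˢ range X).filter (fun i => g ∣ dd X i ∧ g ∣ k + cc X i) with hS
  have hQX : Q ≤ X := le_trans (Nat.le_self_pow (by omega) Q) hX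
  have hinj : Set.InjOn (dd X) S := by
    rintro ⟨⟨q, s⟩, j⟩ hw ⟨⟨q', s'⟩, j'⟩ hw' e
    obtain ⟨h1, -, h2⟩ := mem_filter.mp (mem_coe.mp hw)
    obtain ⟨h1', -, h2'⟩ := mem_filter.mp (mem_coe.mp hw')
    obtain ⟨hx, hj⟩ := mem_product.mp h1
    obtain ⟨hx', hj'⟩ := mem_product.mp h1'
    obtain ⟨h3, h4⟩ := hB _ hx
    obtain ⟨h3', h4'⟩ := hB _ hx'
    have h5 := mem_range.mp hj
    have h5' := mem_range.mp hj'
    have e1 := dd_add (X := X) (w := ((q, s), j)) (by simp only at h3 ⊢; omega)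
    have e1' := dd_add (X := X) (w := ((q', s'), j')) (by simp only at h3' ⊢; omega)
    have e2 := cc_add ((q, s), j) hX1
    have e2' := cc_add ((q', s'), j') hX1
    have h6 : cc X ((q, s), j) = cc X ((q', s'), j') := by
      have h7 : (g : ℤ) ∣ ((k + cc X ((q, s), j) : ℕ) : ℤ) - ((k + cc X ((q', s'), j') : ℕ) : ℤ) :=
        dvd_sub (Int.natCast_dvd_natCast.mpr h2) (Int.natCast_dvd_natCast.mpr h2')
      have := Int.eq_zero_of_abs_lt_dvd h7 (by
        simp only at *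
        rw [abs_lt]; constructor <;> omega)
      omega
    simp only at *
    have e3 : q * (X + 1 + j) = q' * (X + 1 + j') := by rw [← e1, ← e1', e]
    have e4 : s + (X + 1 + j) = s' + (X + 1 + j') := by omega
    have e5 : q = q' := le_antisymm (top_inj hX h3 h4 h4' (by omega) e3 e4)
      (top_inj hX h3' h4' h4 (by omega) e3.symm e4.symm)
    subst e5
    have e6 := Nat.eq_of_mul_eq_mul_left (by omega) e3
    have e7 : j = j' := by omega
    have e8 : s = s' := by omega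
    rw [e7, e8]
  rw [← sum_image (f := fun n : ℕ => (g : ℝ) / n) hinj]
  refine (sum_dvd_le (A := 2 * Q * X) (g := g) (by omega) _ (fun a ha => ?_)
    (fun n : ℕ => (g : ℝ) / n) fun a => by positivity).trans (le_trans (le_of_eq ?_) (hs_le _))
  · obtain ⟨w, hw, rfl⟩ := mem_image.mp ha
    obtain ⟨h1, h2, -⟩ := mem_filter.mp hw
    obtain ⟨hx, hj⟩ := mem_product.mp h1
    obtain ⟨h3, h4⟩ := hB _ hx
    refine ⟨h2, le_trans (Nat.mul_pos (by omega) hX1) (dd_ge (by omega)),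
      (dd_le (by omega) (mem_range.mp hj)).trans ?_⟩
    gcongr
  · refine sum_congr rfl fun b _ => ?_
    have : (g : ℝ) ≠ 0 := by exact_mod_cast (show g ≠ 0 by omega)
    push_cast
    rw [div_mul_cancel_left₀ this, one_div]

lemma T_small (hB : ∀ x ∈ B, x.2 < x.1 ∧ x.1 ≤ Q) (hX1 : 1 ≤ X) {g l : ℕ} (hg0 : 0 < g)
    (hg : g ≤ 2 * X) (hl : l ∣ g) (k : ℕ) :
    ∑ i ∈ (B ×ˢ range X).filter (fun i => g ∣ dd X i ∧ g ∣ k + cc X i), (g : ℝ) / dd X i ≤
      3 * ∑ x ∈ B.filter (fun x => (l : ℤ) ∣ x.1 * ((k : ℤ) - 2 + x.2) + 1), (1 : ℝ) / x.1 := by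
  have hX' : (0 : ℝ) < X := by exact_mod_cast hX1
  have hg' : (0 : ℝ) < g := by exact_mod_cast hg0
  have hg2 : (g : ℝ) ≤ 2 * X := by exact_mod_cast hg
  rw [sum_filter, sum_product, sum_filter, mul_sum]
  refine sum_le_sum fun x hx => ?_
  have hx1 : 1 ≤ x.1 := by have := (hB x hx).1; omega
  split_ifs with h
  · have h1 := (abs_le.mp (count_ap hg0 (Nat.coprime_one_right g) (k + (x.2 + X - 1)) X)).2
    calc _ ≤ ∑ j ∈ range X, g * (1 / (x.1 : ℝ) * (1 / X)) *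
          if g ∣ k + (x.2 + X - 1) + j * 1 then (1 : ℝ) else 0 := by
          refine sum_le_sum fun j _ => ?_
          have h2 := inv_dd_le (X := X) (w := (x, j)) hx1 hX1
          split_ifs with h3 h4
          · rw [mul_one, div_eq_mul_one_div]; gcongr
          · exact absurd (by simpa [cc, add_assoc] using h3.2) h4
          · positivity
          · simp
      _ ≤ g * (1 / (x.1 : ℝ) * (1 / X)) * (X / g + 2 * X / g) := by
          rw [← mul_sum]
          have h3 : (1 : ℝ) ≤ 2 * X / g := by rw [le_div_iff₀ hg']; linarith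
          gcongr
          linarith
      _ = _ := by field_simp; ring
  · rw [mul_zero]
    refine le_of_eq (sum_eq_zero fun j _ => if_neg fun h2 => h ?_)
    have e1 : ((dd X (x, j) : ℕ) : ℤ) + 1 = x.1 * (X + 1 + j) := by
      exact_mod_cast dd_add (X := X) (w := (x, j)) hx1
    have e2 : ((cc X (x, j) : ℕ) : ℤ) + 2 = x.2 + (X + 1 + j) := by
      exact_mod_cast cc_add (x, j) hX1
    have h3 : (l : ℤ) ∣ dd X (x, j) := Int.natCast_dvd_natCast.mpr (hl.trans h2.1)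
    have h4 : (l : ℤ) ∣ (k : ℤ) + cc X (x, j) := by
      exact_mod_cast Int.natCast_dvd_natCast.mpr (hl.trans h2.2)
    have h5 := dvd_sub (h4.mul_left x.1) h3
    have e3 : (x.1 : ℤ) * (k + cc X (x, j)) - dd X (x, j) = x.1 * ((k : ℤ) - 2 + x.2) + 1 := by
      linear_combination (x.1 : ℤ) * e2 - e1
    rwa [e3] at h5

lemma V2_bound (hB : ∀ x ∈ B, x.2 < x.1 ∧ x.1 ≤ Q) (hX : Q ^ 2 ≤ X) (hX1 : 1 ≤ X) {η : ℝ}
    (hη : 0 ≤ η)
    (hAC : ∀ l, l.Prime → z < l → ∀ κ : ℤ,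
      ∑ x ∈ B.filter (fun x => (l : ℤ) ∣ x.1 * (κ + x.2) + 1), (1 : ℝ) / x.1 ≤ η * wt B)
    {F : Finset ((ℕ × ℕ) × ℕ)} (hF : F ⊆ B ×ˢ range X) {u : ℕ} (hu : ∀ i ∈ F, Ω (dd X i) ≤ u)
    {L w : ℕ} (hL : L ≠ 0) (hw : Ω L ≤ w) (hLz : ∀ p, p.Prime → p ∣ L → z < p) (k : ℕ) :
    ∑ i ∈ F.filter (fun i => ¬ Nat.Coprime (dd X i) L),
      (Nat.gcd (dd X i) L : ℝ) / dd X i * ind (Nat.gcd (dd X i) L) (cc X i) k ≤
      ((w : ℝ) + 1) ^ u * (1 + log (2 * Q * X : ℕ) + 3 * (η * wt B)) := by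
  set Gs := (L.divisors.filter fun g => Ω g ≤ u).erase 1 with hGs
  have hW : 0 ≤ wt B := sum_nonneg fun _ _ => by positivity
  have hlog := log_natCast_nonneg (2 * Q * X)
  calc _ ≤ ∑ i ∈ F.filter (fun i => ¬ Nat.Coprime (dd X i) L),
        ∑ g ∈ Gs, if g ∣ dd X i ∧ g ∣ k + cc X i then (g : ℝ) / dd X i else 0 := by
        refine sum_le_sum fun i hi => ?_
        obtain ⟨hi1, hi2⟩ := mem_filter.mp hi
        have hx1 : 1 ≤ i.1.1 := by have := (hB _ (mem_product.mp (hF hi1)).1).1; omega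
        have hd0 : dd X i ≠ 0 := (lt_of_lt_of_le (Nat.mul_pos hx1 hX1) (dd_ge hx1)).ne'
        have hg : Nat.gcd (dd X i) L ∈ Gs := mem_erase.mpr ⟨hi2, mem_filter.mpr
          ⟨Nat.mem_divisors.mpr ⟨Nat.gcd_dvd_right _ _, hL⟩,
            (omega_mono hd0 (Nat.gcd_dvd_left _ _)).trans (hu i hi1)⟩⟩
        refine le_trans ?_ (single_le_sum
          (f := fun g => if g ∣ dd X i ∧ g ∣ k + cc X i then (g : ℝ) / dd X i else 0)
          (fun g _ => by positivity) hg)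
        unfold ind
        by_cases h : Nat.gcd (dd X i) L ∣ k + cc X i
        · simp [h, Nat.gcd_dvd_left]
        · simp [h]
    _ ≤ ∑ i ∈ B ×ˢ range X,
        ∑ g ∈ Gs, if g ∣ dd X i ∧ g ∣ k + cc X i then (g : ℝ) / dd X i else 0 :=
        sum_le_sum_of_subset_of_nonneg ((filter_subset _ _).trans hF)
          fun i _ _ => sum_nonneg fun l _ => by positivity
    _ ≤ ∑ _g ∈ Gs, (1 + log (2 * Q * X : ℕ) + 3 * (η * wt B)) := by
        rw [sum_comm]
        refine sum_le_sum fun g hg => ?_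
        obtain ⟨hg1, hg2⟩ := mem_erase.mp hg
        have hg3 := (mem_filter.mp hg2).1
        rw [← sum_filter]
        by_cases h : 2 * X < g
        · refine (T_large hB hX hX1 h k).trans (le_add_of_nonneg_right (by positivity))
        · obtain ⟨l, hl, hlg⟩ := Nat.exists_prime_and_dvd hg1
          have h1 := T_small hB hX1 (Nat.pos_of_mem_divisors hg3) (not_lt.mp h) hlg k
          have h2 := hAC l hl (hLz l hl (hlg.trans (Nat.dvd_of_mem_divisors hg3))) ((k : ℤ) - 2)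
          linarith
    _ ≤ _ := by
        rw [sum_const, nsmul_eq_mul]
        gcongr
        exact_mod_cast card_erase_le.trans (card_small_divisors hL hw)

theorem top_bound (hB : ∀ x ∈ B, x.2 < x.1 ∧ x.1 ≤ Q) (hX : Q ^ 2 ≤ X) (hz : 2 ≤ z) (hzX : z ≤ X)
    {u m : ℕ} (hu : 2 * Q * X ≤ z ^ u) {η ρ δ : ℝ} (hη : 0 ≤ η) (hδ0 : 0 ≤ δ) (hδ1 : δ ≤ 1)
    (hAC : ∀ l, l.Prime → z < l → ∀ κ : ℤ,
      ∑ x ∈ B.filter (fun x => (l : ℤ) ∣ x.1 * (κ + x.2) + 1), (1 : ℝ) / x.1 ≤ η * wt B)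
    (hρ : ∀ q, 1 ≤ q → ρ * X ≤ (((range X).filter fun j =>
      ∀ p ∈ Nat.primesLE z, ¬ p ∣ (q * (X + 1) - 1) + j * q).card : ℝ))
    (hμ : 1 ≤ ρ / 2 * wt B)
    (hV : (((2 * m * u : ℕ) : ℝ) + 1) ^ u * (1 + log (2 * Q * X : ℕ) + 3 * (η * wt B)) +
      (2 * m * u : ℕ) * (2 / z * wt B) ≤ δ * (ρ / 2 * wt B)) (M N : ℕ) :
    (((range N).filter fun k => ∀ i ∈ B ×ˢ range X, ¬ dd X i ∣ M + k + cc X i).card : ℝ) ≤
      N * (12 * δ) ^ m + 2 * ((X : ℝ) ^ 2 * (2 * Q * X : ℕ)) ^ (2 * m) := by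
  classical
  set F := (B ×ˢ range X).filter fun i => ∀ p ∈ Nat.primesLE z, ¬ p ∣ dd X i with hFdef
  have hF : F ⊆ B ×ˢ range X := filter_subset _ _
  have hX1 : 1 ≤ X := by omega
  have hX' : (0 : ℝ) < X := by exact_mod_cast hX1
  have hq1 : ∀ i ∈ F, 1 ≤ i.1.1 := fun i hi => by
    have := (hB _ (mem_product.mp (hF hi)).1).1; omega
  have hd : ∀ i ∈ F, 0 < dd X i := fun i hi =>
    lt_of_lt_of_le (Nat.mul_pos (hq1 i hi) hX1) (dd_ge (hq1 i hi))
  have hy : ∀ i ∈ F, dd X i ≤ 2 * Q * X := fun i hi => by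
    obtain ⟨h1, h2⟩ := mem_product.mp (hF hi)
    refine (dd_le (hq1 i hi) (mem_range.mp h2)).trans ?_
    gcongr
    exact (hB _ h1).2
  have hr : ∀ i ∈ F, ∀ p, p.Prime → p ∣ dd X i → z < p := fun i hi p hp h => by
    by_contra h1
    exact (mem_filter.mp hi).2 p (Nat.mem_primesLE.mpr ⟨not_lt.mp h1, hp⟩) h
  have hom : ∀ i ∈ F, Ω (dd X i) ≤ u := fun i hi => by
    have h1 := pow_omega_le (hd i hi).ne' fun p hp h => (hr i hi p hp h).le
    exact (Nat.pow_le_pow_iff_right (by omega)).mp (h1.trans ((hy i hi).trans hu))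
  have h := moment_sieve' F (dd X) (cc X) (m := m) M N hd hy
    (P := fun j L => L ≠ 0 ∧ Ω L ≤ j * u ∧ ∀ p, p.Prime → p ∣ L → z < p)
    ⟨one_ne_zero, by simp, fun p hp h => absurd (Nat.dvd_one.mp h) hp.ne_one⟩
    (fun j L i hi ⟨h1, h2, h3⟩ => ⟨mul_ne_zero h1 (hd i hi).ne', by
      have := hom i hi
      rw [ArithmeticFunction.cardFactors_mul h1 (hd i hi).ne', add_mul]
      omega, fun p hp h => ((Nat.Prime.dvd_mul hp).mp h).elim (h3 p hp) (hr i hi p hp)⟩)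
    hδ0 hδ1 hμ ?_ ?_
  · refine le_trans ?_ (h.trans ?_)
    · refine Nat.cast_le.mpr (card_le_card fun k hk => ?_)
      exact mem_filter.mpr ⟨(mem_filter.mp hk).1, fun i hi => (mem_filter.mp hk).2 i (hF hi)⟩
    · have h1 : B.card ≤ Q ^ 2 := by
        have : B ⊆ Icc 1 Q ×ˢ range Q := fun x hx => by
          obtain ⟨h2, h3⟩ := hB x hx
          exact mem_product.mpr ⟨mem_Icc.mpr ⟨by omega, h3⟩, mem_range.mpr (by omega)⟩
        simpa [sq] using card_le_card this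
      have h2 : F.card ≤ X ^ 2 := by
        refine (card_le_card hF).trans ?_
        rw [card_product, card_range, sq]
        exact Nat.mul_le_mul_right _ (h1.trans hX)
      have h3 : (F.card : ℝ) ≤ (X : ℝ) ^ 2 := by exact_mod_cast h2
      gcongr
  · rw [hFdef, sum_filter, sum_product, wt, mul_sum]
    refine sum_le_sum fun x hx => ?_
    have hx1 : 1 ≤ x.1 := by have := (hB x hx).1; omega
    have hx' : (0 : ℝ) < x.1 := by exact_mod_cast hx1
    rw [← sum_filter]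
    refine le_trans ?_ (card_nsmul_le_sum _ _ (1 / (2 * (x.1 : ℝ) * X)) fun j hj => ?_)
    · have h1 := hρ x.1 hx1
      rw [nsmul_eq_mul]
      calc ρ / 2 * (1 / (x.1 : ℝ)) = ρ * X * (1 / (2 * (x.1 : ℝ) * X)) := by field_simp
        _ ≤ _ := by gcongr; exact h1
    · have h1 : (dd X (x, j) : ℝ) ≤ (2 * x.1 * X : ℕ) := by
        exact_mod_cast dd_le (w := (x, j)) hx1 (mem_range.mp (mem_filter.mp hj).1)
      have h2 : (0 : ℝ) < dd X (x, j) := by
        exact_mod_cast lt_of_lt_of_le (Nat.mul_pos hx1 hX1) (dd_ge (w := (x, j)) hx1)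
      push_cast at h1
      gcongr
  · rintro j L hj ⟨h1, h2, h3⟩ k
    have hw : Ω L ≤ 2 * m * u := h2.trans (Nat.mul_le_mul_right _ hj.le)
    rw [sum_add_distrib]
    exact (add_le_add (V2_bound hB hX hX1 hη hAC hF hom h1 hw h3 k)
      (V1_bound hB (by omega) hzX hF h1 hw h3)).trans hV

end

end Pool.Agent.Lib.MP_852f56_nt
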